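import Pool.Agent.U909.CI.Gro

/-!
# All words: the Turaev-Viro invariants
-/

set_option autoImplicit false

namespace Pool.Agent.U909.CI

open Finset Matrix Filter
open Pool.Agent.H550R3.Jones (br brf)
open Pool.Agent.Y482.CW
open Pool.Agent.W707.TV (vh Rh Rh_pos vh_ne)
open Pool.Agent.Y672.CW (upper tvw_eq mem_cols card_cols_pos swW_diag)
open Pool.Agent.R807.TQ (wl pw rate syw)
open Pool.Agent.R807.IN (bl pws syw_append syw_bl wl_append dual_pw)
open Pool.Agent.U909.CY (rk rt sr axis_all)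
open GapVol (lob)
open scoped Real Topology

/-- from the sums to the Turaev-Viro invariants, lower bound -/
theorem tv_low (u : List Letter) (W : ℝ)
    (hL : ∀ ε : ℝ, 0 < ε → ∀ᶠ M : ℕ in atTop, Real.exp (M / (2 * π) * W - ε * M) ≤
      ∑ a ∈ Icc 1 M, ‖br (vh M) (a : ℤ) * tg M u a (M, (M, M)) (vh M)‖) {ε : ℝ} (hε : 0 < ε) :
    ∀ᶠ r : ℕ in atTop ⊓ 𝓟 {r : ℕ | Odd r}, Real.exp (r / (2 * π) * (W - ε)) ≤ tvw u r := by
  have hp := Real.pi_pos
  have h1 : ∀ᶠ M : ℕ in atTop, Real.exp (((2 * M + 1 : ℕ) : ℝ) / (2 * π) * (W - ε)) ≤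
      tvw u (2 * M + 1) := by
    have hb : 0 < ε / (4 * π) := by positivity
    have h2 := (isLittleO_pow_exp_pos_mul_atTop (k := 3) hb).bound
      (c := Real.exp (-(W / (2 * π)))) (Real.exp_pos _)
    have h3 : Tendsto (fun M : ℕ => ((2 * M + 1 : ℕ) : ℝ)) atTop atTop := by
      refine tendsto_natCast_atTop_atTop.comp ?_
      exact tendsto_atTop_mono (fun M => by show M ≤ 2 * M + 1; omega) tendsto_id
    filter_upwards [h3.eventually h2, hL (ε / (4 * π)) hb, eventually_ge_atTop 2] with M h4 h5 hM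
    obtain ⟨r, hr⟩ : ∃ r : ℝ, r = ((2 * M + 1 : ℕ) : ℝ) := ⟨_, rfl⟩
    rw [tvw_eq u hM]
    rw [← hr] at h4 ⊢
    have hr0 : 0 < r := by rw [hr]; positivity
    rw [Real.norm_of_nonneg (by positivity), Real.norm_of_nonneg (Real.exp_pos _).le] at h4
    have hM2 : (2 : ℝ) ≤ M := by exact_mod_cast hM
    have h1M : 1 ≤ M := by omega
    have hMr : 2 * (M : ℝ) ≤ r := by
      rw [hr]
      push_cast
      linarith
    have hMr' : (M : ℝ) = (r - 1) / 2 := by
      rw [hr]
      push_cast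
      ring
    have hr1 : 1 ≤ r := by
      rw [hr]
      exact_mod_cast (show 1 ≤ 2 * M + 1 by omega)
    set E := Real.exp (M / (2 * π) * W - ε / (4 * π) * M) with hEd
    have hE0 : 0 < E := Real.exp_pos _
    have hcs : (∑ a ∈ Icc 1 M, ‖br (vh M) (a : ℤ) * tg M u a (M, (M, M)) (vh M)‖) ^ 2 ≤
        (M : ℝ) * ∑ a ∈ Icc 1 M, ‖br (vh M) (a : ℤ) * tg M u a (M, (M, M)) (vh M)‖ ^ 2 := by
      have := sq_sum_le_card_mul_sum_sq (s := Icc 1 M)
        (f := fun a : ℕ => ‖br (vh M) (a : ℤ) * tg M u a (M, (M, M)) (vh M)‖)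
      rwa [Nat.card_Icc, Nat.add_sub_cancel] at this
    have hsub : ∑ a ∈ Icc 1 M, ‖br (vh M) (a : ℤ) * tg M u a (M, (M, M)) (vh M)‖ ^ 2 ≤
        ∑ a ∈ Icc 1 M, ∑ c ∈ cols u M,
          ‖br (vh M) (a : ℤ) * tg M u a c (vh M)‖ ^ 2 := by
      refine Finset.sum_le_sum fun a ha => ?_
      exact Finset.single_le_sum (f := fun c : Col =>
        ‖br (vh M) (a : ℤ) * tg M u a c (vh M)‖ ^ 2)
        (fun j _ => by positivity)
        (mem_cols.2 ⟨⟨⟨h1M, le_rfl⟩, ⟨h1M, le_rfl⟩, ⟨h1M, le_rfl⟩⟩, swW_diag _ M⟩)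
    set SS := ∑ a ∈ Icc 1 M, ∑ c ∈ cols u M,
      ‖br (vh M) (a : ℤ) * tg M u a c (vh M)‖ ^ 2 with hSS
    have hSS0 : 0 ≤ SS := Finset.sum_nonneg fun _ _ => Finset.sum_nonneg fun _ _ => by positivity
    have hE1 : E ^ 2 ≤ (M : ℝ) * SS :=
      (pow_le_pow_left₀ hE0.le h5 2).trans
        (hcs.trans (mul_le_mul_of_nonneg_left hsub (Nat.cast_nonneg M)))
    have hc1 : (1 : ℝ) ≤ ((cols u 2).card : ℝ) := by exact_mod_cast card_cols_pos u
    have h9 : 1 / r * SS ≤ ((cols u 2).card : ℝ) * (1 / r * SS) := by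
      have : 0 ≤ 1 / r * SS := by positivity
      nlinarith
    have h10 : E ^ 2 ≤ r ^ 3 * (((cols u 2).card : ℝ) * (1 / r * SS)) := by
      calc E ^ 2 ≤ (M : ℝ) * SS := hE1
        _ ≤ r * SS := mul_le_mul_of_nonneg_right (by linarith) hSS0
        _ ≤ r * (r * SS) := by
            refine mul_le_mul_of_nonneg_left ?_ hr0.le
            nlinarith
        _ = r ^ 3 * (1 / r * SS) := by
            field_simp
        _ ≤ r ^ 3 * (((cols u 2).card : ℝ) * (1 / r * SS)) :=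
            mul_le_mul_of_nonneg_left h9 (by positivity)
    obtain ⟨TV, hTV⟩ : ∃ TV : ℝ, TV = ((cols u 2).card : ℝ) * (1 / r * SS) := ⟨_, rfl⟩
    have hTV0 : 0 ≤ TV := by rw [hTV]; positivity
    rw [← hTV] at h10
    have h11 : E ^ 2 ≤ (Real.exp (-(W / (2 * π))) * Real.exp (ε / (4 * π) * r)) * TV :=
      h10.trans (mul_le_mul_of_nonneg_right h4 hTV0)
    have h12 : Real.exp (r / (2 * π) * (W - ε)) * (Real.exp (-(W / (2 * π))) *
        Real.exp (ε / (4 * π) * r)) ≤ E ^ 2 := by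
      rw [hEd, ← Real.exp_nat_mul, ← Real.exp_add, ← Real.exp_add]
      apply Real.exp_le_exp.2
      rw [hMr']
      have h13 : ((2 : ℕ) : ℝ) * ((r - 1) / 2 / (2 * π) * W - ε / (4 * π) * ((r - 1) / 2)) -
          (r / (2 * π) * (W - ε) + (-(W / (2 * π)) + ε / (4 * π) * r)) = ε / (4 * π) := by
        push_cast
        field_simp
        ring
      linarith
    have h14 : TV = tvw u (2 * M + 1) := by
      rw [hTV, tvw_eq u hM, ← hr]
    have hF : 0 < Real.exp (-(W / (2 * π))) * Real.exp (ε / (4 * π) * r) := by positivity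
    have h15 : Real.exp (r / (2 * π) * (W - ε)) ≤ TV := by
      have h16 := h12.trans h11
      rw [mul_comm _ TV] at h16
      exact le_of_mul_le_mul_right h16 hF
    rw [hTV] at h15
    exact h15
  have h8 : Tendsto (fun r : ℕ => (r - 1) / 2) (atTop ⊓ 𝓟 {r : ℕ | Odd r}) atTop := by
    refine Tendsto.mono_left ?_ inf_le_left
    refine tendsto_atTop.2 fun b => ?_
    filter_upwards [eventually_ge_atTop (2 * b + 1)] with r hr
    omega
  have h9 : ∀ᶠ r : ℕ in atTop ⊓ 𝓟 {r : ℕ | Odd r}, Odd r :=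
    Filter.mem_inf_of_right (mem_principal_self _)
  filter_upwards [h8.eventually h1, h9] with r hr hodd
  obtain ⟨k, rfl⟩ := hodd
  have e : 2 * ((2 * k + 1 - 1) / 2) + 1 = 2 * k + 1 := by omega
  rw [e] at hr
  exact hr


/-! ### Syllables -/

/-- the dual list of syllables -/
def dS (s : List (Letter × ℕ)) : List (Letter × ℕ) := (s.map fun p => (dL p.1, p.2)).reverse

lemma dW_append (u w : List Letter) : dW (u ++ w) = dW w ++ dW u := by
  simp [dW]

lemma dW_rep (e : ℕ) (l : Letter) : dW (List.replicate e l) = List.replicate e (dL l) := by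
  simp [dW]

lemma syw_dS (s : List (Letter × ℕ)) : syw (dS s) = dW (syw s) := by
  induction s with
  | nil => rfl
  | cons p s ih =>
    have e : dS (p :: s) = dS s ++ [(dL p.1, p.2)] := by simp [dS]
    have e2 : syw (p :: s) = List.replicate p.2 p.1 ++ syw s := rfl
    have e3 : syw [(dL p.1, p.2)] = List.replicate p.2 (dL p.1) := by simp [syw]
    rw [e, syw_append, ih, e2, dW_append, dW_rep, e3]

lemma dW_wl (u : List Bool) : dW (wl u) = wl (Pool.Agent.R807.IN.dual u) := by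
  unfold dW wl Pool.Agent.R807.IN.dual
  rw [List.map_map, List.map_reverse, List.map_map]
  rfl

/-- the syllables of the word -/
def sG (A n k : ℕ) (x y : List (Letter × ℕ)) : List (Letter × ℕ) :=
  pws ((x ++ (bl A n ++ y)) ++ ((dS y ++ bl A n) ++ dS x)) k

lemma syw_pwg {s : List (Letter × ℕ)} {u : List Letter} (h : syw s = u) (k : ℕ) :
    syw (pws s k) = powg u k := by
  induction k with
  | zero => rfl
  | succ k ih =>
    change syw (s ++ pws s k) = u ++ powg u k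
    rw [syw_append, h, ih]

lemma syw_sG (A n k : ℕ) (x y : List (Letter × ℕ)) : syw (sG A n k x y) = wordg A n k x y := by
  refine syw_pwg ?_ k
  unfold wxg
  rw [dW_append, dW_append, dW_wl, dual_pw]
  simp only [syw_append, syw_dS, syw_bl]

lemma sr_append (f : ℕ → ℝ) (s t : List (Letter × ℕ)) : sr f (s ++ t) = sr f s + sr f t := by
  simp [sr]

lemma sr_dS (f : ℕ → ℝ) (s : List (Letter × ℕ)) : sr f (dS s) = sr f s := by
  unfold sr dS
  rw [List.map_reverse, List.sum_reverse, List.map_map]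
  rfl

lemma sr_pws (f : ℕ → ℝ) (s : List (Letter × ℕ)) (k : ℕ) : sr f (pws s k) = k * sr f s := by
  induction k with
  | zero => simp [pws, sr]
  | succ k ih =>
    change sr f (s ++ pws s k) = _
    rw [sr_append, ih]
    push_cast
    ring

lemma sr_bl (f : ℕ → ℝ) (A n : ℕ) : sr f (bl A n) = n * (2 * f A) := by
  induction n with
  | zero => simp [bl, sr]
  | succ n ih =>
    have e1 : sr f (bl A (n + 1)) = f A + (f A + sr f (bl A n)) := by
      simp [sr, bl]
    rw [e1, ih]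
    push_cast
    ring

lemma sr_sG (f : ℕ → ℝ) (A n k : ℕ) (x y : List (Letter × ℕ)) : sr f (sG A n k x y) =
    k * (4 * n * f A + 2 * (sr f x + sr f y)) := by
  unfold sG
  rw [sr_pws]
  simp only [sr_append, sr_dS, sr_bl]
  ring

lemma rt_rate {A : ℕ} (hA : A = 1 ∨ A = 2) : rt A = rate A := by
  rcases hA with rfl | rfl
  · unfold rt rate
    norm_num
  · unfold rt rate
    norm_num

/-- **two-sided bounds** -/
theorem two_g {A : ℕ} (hA : A = 1 ∨ A = 2) (n k : ℕ) (hn : 1 ≤ n) (hk : 1 ≤ k)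
    (x y : List (Letter × ℕ)) {ε : ℝ} (hε : 0 < ε) : ∀ᶠ r : ℕ in atTop ⊓ 𝓟 {r : ℕ | Odd r},
    4 * n * k * rate A - 2 * k * (sr rk x + sr rk y) - ε ≤
      2 * π / ((r : ℝ) - 2) * Real.log (tvw (wordg A n k x y) r) ∧
    2 * π / ((r : ℝ) - 2) * Real.log (tvw (wordg A n k x y) r) ≤
      4 * n * k * rate A + 2 * k * (sr rt x + sr rt y) + ε := by
  have hp := Real.pi_pos
  have h1 := tv_low (wordg A n k x y) _ (fun ε hε => low_g hA n k hn hk x y hε)
    (half_pos hε)
  have h2 := axis_all 0 (sG A n k x y) (half_pos hε)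
  have e0 : half 0 ++ syw (sG A n k x y) = wordg A n k x y := by
    rw [syw_sG]
    rfl
  rw [e0, sr_sG, rt_rate hA] at h2
  obtain ⟨Wm, hWm⟩ : ∃ Wm : ℝ, Wm = k * (4 * n * rate A - 2 * (sr rk x + sr rk y)) := ⟨_, rfl⟩
  obtain ⟨Wp, hWp⟩ : ∃ Wp : ℝ, Wp = k * (4 * n * rate A + 2 * (sr rt x + sr rt y)) := ⟨_, rfl⟩
  rw [← hWm] at h1
  rw [← hWp] at h2
  have hlarge : ∀ᶠ r : ℕ in atTop, 2 * |Wm| + 2 * |Wp| + 2 * ε ≤ ((r : ℝ) - 2) * (ε / 2) := by
    have h3 : Tendsto (fun r : ℕ => ((r : ℝ) - 2) * (ε / 2)) atTop atTop := by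
      refine Tendsto.atTop_mul_const (half_pos hε) ?_
      exact tendsto_atTop_add_const_right _ (-2 : ℝ) tendsto_natCast_atTop_atTop
    exact h3.eventually_ge_atTop _
  filter_upwards [h1, h2, hlarge.filter_mono inf_le_left,
    (eventually_gt_atTop 2).filter_mono inf_le_left] with r h3 h4 h5 h6
  have hr : (2 : ℝ) < r := by exact_mod_cast h6
  have hr2 : 0 < (r : ℝ) - 2 := by linarith
  have hTV : 0 < tvw (wordg A n k x y) r := lt_of_lt_of_le (Real.exp_pos _) h3
  have h7 := Real.log_le_log (Real.exp_pos _) h3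
  have h8 := Real.log_le_log hTV h4
  rw [Real.log_exp] at h7 h8
  set Y := Real.log (tvw (wordg A n k x y) r) with hY
  have hm1 := neg_abs_le Wm
  have hm2 := le_abs_self Wp
  have hm3 := abs_nonneg Wm
  have hm4 := abs_nonneg Wp
  have h9 : Wm - ε ≤ 2 * π / ((r : ℝ) - 2) * Y := by
    rw [div_mul_eq_mul_div, le_div_iff₀ hr2]
    have h10 : (r : ℝ) * (Wm - ε / 2) ≤ 2 * π * Y := by
      have h11 := mul_le_mul_of_nonneg_left h7 (by positivity : 0 ≤ 2 * π)
      have h12 : 2 * π * ((r : ℝ) / (2 * π) * (Wm - ε / 2)) = r * (Wm - ε / 2) := by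
        field_simp
      linarith
    nlinarith
  have h10 : 2 * π / ((r : ℝ) - 2) * Y ≤ Wp + ε := by
    rw [div_mul_eq_mul_div, div_le_iff₀ hr2]
    have h10 : 2 * π * Y ≤ (r : ℝ) * (Wp + ε / 2) := by
      have h11 := mul_le_mul_of_nonneg_left h8 (by positivity : 0 ≤ 2 * π)
      have h12 : 2 * π * ((r : ℝ) / (2 * π) * (Wp + ε / 2)) = r * (Wp + ε / 2) := by
        field_simp
      linarith
    nlinarith
  constructor
  · have e : (4 * n * k * rate A : ℝ) - 2 * k * (sr rk x + sr rk y) = Wm := by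
      rw [hWm]
      ring
    linarith
  · have e : (4 * n * k * rate A : ℝ) + 2 * k * (sr rt x + sr rt y) = Wp := by
      rw [hWp]
      ring
    linarith

end Pool.Agent.U909.CI
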