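import Pool.Agent.U909.CI.Mod
import Pool.Agent.U909.CY.Bnd
import Pool.Agent.R807.IN3

/-!
# All words: the growth
-/

set_option autoImplicit false

namespace Pool.Agent.U909.CI

open Finset Matrix Filter
open Pool.Agent.H550R3.Jones (br brf)
open Pool.Agent.Y482.CY (LL UU)
open Pool.Agent.Y482.CW
open Pool.Agent.W707.TV (vh Rh Rh_pos vh_ne)
open Pool.Agent.Y672.CW (upper tvw_eq mem_cols card_cols_pos swW_diag)
open Pool.Agent.R807.TQ (wl pw mw mw_pw rate syw LLg_LL UUg_UU dif)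
open Pool.Agent.R807.IN (fr fr_nonneg fr_tr wm wm_pw LBA bl pws syw_append syw_bl wl_append dual_pw)
open Pool.Agent.U909.CY (rk rt sr upw4 Eqc Eqc_sw Pb_eq Wt_one)
open GapVol (lob)
open scoped Real Topology

/-- powers of a word -/
def powg (u : List Letter) : ℕ → List Letter
  | 0 => []
  | k + 1 => u ++ powg u k

/-- the word `x (s_1^{-A} s_2^A)^n y` -/
def wxg (A n : ℕ) (x y : List (Letter × ℕ)) : List Letter := syw x ++ (wl (pw A n) ++ syw y)

/-- the word `(w w*)^k`, `w = x (s_1^{-A} s_2^A)^n y` -/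
def wordg (A n k : ℕ) (x y : List (Letter × ℕ)) : List Letter :=
  powg (wxg A n x y ++ dW (wxg A n x y)) k

lemma wg_pow {N : ℕ} {L Li : Matrix (Fin N) (Fin N) ℂ} (u : List Letter) (k : ℕ) :
    wg L Li (powg u k) = wg L Li u ^ k := by
  induction k with
  | zero => rfl
  | succ k ih =>
    change wg L Li (u ++ powg u k) = _
    rw [wg_append, ih, pow_succ]

lemma wg_word {N : ℕ} {L Li : Matrix (Fin N) (Fin N) ℂ} (A n k : ℕ) (x y : List (Letter × ℕ)) :
    wg L Li (wordg A n k x y) =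
      ((wg L Li (syw x ++ (wl (pw A n) ++ syw y)))ᴴ * wg L Li (syw x ++ (wl (pw A n) ++ syw y))) ^ k := by
  unfold wordg
  rw [wg_pow, wg_append, wg_dual]
  rfl

lemma mg_wl (b m : ℕ) (v : ℂ) (u : List Bool) : mg b m v (wl u) = mw b m v u := by
  induction u with
  | nil => rfl
  | cons s u ih =>
    change mg b m v (wl u) * ml b m v (s, s) = mw b m v u * (if s then UU b m v else LL b m v)
    rw [ih]
    cases s
    · exact congrArg _ (LLg_LL b m v)
    · exact congrArg _ (UUg_UU b m v)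

/-- the size of a power of a letter on the highest weight vectors -/
noncomputable def Fe (j e : ℕ) : ℝ := ‖(mg (j + 2) (j + 1) (vh (j + 2)) (wl (pw e 1))).trace‖

lemma Fe_eq {j : ℕ} {L Li : Matrix (Fin (j + 1 + 1)) (Fin (j + 1 + 1)) ℂ}
    (h3 : ∀ u : List Letter, (mg (j + 1 + 1) (j + 1) (vh (j + 1 + 1)) u).trace = (wg L Li u).trace)
    (e : ℕ) : Fe j e = fr (L ^ e) := by
  unfold Fe
  have h := h3 (wl (pw e 1))
  rw [wg_wl, wm_pw, pow_one, fr_tr] at h
  have h' : (mg (j + 2) (j + 1) (vh (j + 2)) (wl (pw e 1))).trace = ((fr (L ^ e) : ℝ) : ℂ) := h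
  rw [h', Complex.norm_real, Real.norm_of_nonneg (fr_nonneg _)]

lemma top_le (j : ℕ) (u : List Letter) :
    ‖(mg (j + 2) (j + 1) (vh (j + 2)) u).trace‖ ≤
      ∑ a ∈ Icc 1 (j + 2), ‖br (vh (j + 2)) (a : ℤ) *
        tg (j + 2) u a (j + 2, (j + 2, j + 2)) (vh (j + 2))‖ := by
  have h4 := lower_g (M := j + 2) (by omega) u
  have e1 : j + 2 - 1 = j + 1 := by omega
  rw [e1, dif_g] at h4
  exact h4

/-- upper bound for the powers -/
theorem ubE (e : ℕ) {ε : ℝ} (hε : 0 < ε) : ∀ᶠ M : ℕ in atTop, ∀ j, M = j + 2 →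
    Fe j e ≤ Real.exp (M / (2 * π) * (2 * rk e) + ε * M) := by
  have hpoly : ∀ᶠ M : ℕ in atTop, (M : ℝ) ≤ Real.exp (ε / 2 * M) := by
    have h1 := (isLittleO_pow_exp_pos_mul_atTop (k := 1) (half_pos hε)).bound
      (c := 1) (by norm_num)
    have h2 := tendsto_natCast_atTop_atTop (R := ℝ) |>.eventually h1
    filter_upwards [h2] with M hM
    rw [Real.norm_of_nonneg (by positivity), Real.norm_of_nonneg (Real.exp_pos _).le, one_mul,
      pow_one] at hM
    exact hM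
  filter_upwards [upw4 0 (bl e 1) (Pc := Eqc) (fun l c h => by rw [Eqc_sw l h]; exact h)
    Wt_one (fun η hη => Pb_eq hη) (half_pos hε), hpoly] with M h1 h2 j hj
  subst hj
  have e0 : half 0 ++ syw (bl e 1) = wl (pw e 1) := by
    rw [syw_bl]
    rfl
  rw [e0] at h1
  unfold Fe
  refine (top_le j _).trans ?_
  have h5 : ∑ a ∈ Icc 1 (j + 2), ‖br (vh (j + 2)) (a : ℤ) *
      tg (j + 2) (wl (pw e 1)) a (j + 2, (j + 2, j + 2)) (vh (j + 2))‖ ≤
      ∑ _a ∈ Icc 1 (j + 2), Real.exp (((j + 2 : ℕ) : ℝ) / (2 * π) *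
        sr rk (bl e 1) + ε / 2 * ((j + 2 : ℕ) : ℝ)) := by
    refine Finset.sum_le_sum fun a ha => ?_
    rw [Finset.mem_Icc] at ha
    exact h1 a _ ha.1 ha.2 ⟨le_rfl, le_rfl, le_rfl⟩ ⟨rfl, rfl⟩ (swW_diag _ _)
  refine h5.trans ?_
  rw [Finset.sum_const, Nat.card_Icc, Nat.add_sub_cancel, nsmul_eq_mul]
  have e2 : sr rk (bl e 1) = 2 * rk e := by
    simp [sr, bl]
    ring
  rw [e2]
  calc ((j + 2 : ℕ) : ℝ) * Real.exp (((j + 2 : ℕ) : ℝ) / (2 * π) * (2 * rk e) +
        ε / 2 * ((j + 2 : ℕ) : ℝ)) ≤ Real.exp (ε / 2 * ((j + 2 : ℕ) : ℝ)) *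
        Real.exp (((j + 2 : ℕ) : ℝ) / (2 * π) * (2 * rk e) + ε / 2 * ((j + 2 : ℕ) : ℝ)) :=
        mul_le_mul_of_nonneg_right h2 (Real.exp_pos _).le
    _ = _ := by
        rw [← Real.exp_add]
        congr 1
        ring

/-- upper bound for lists of syllables -/
theorem ubS (s : List (Letter × ℕ)) {ε : ℝ} (hε : 0 < ε) : ∀ᶠ M : ℕ in atTop, ∀ j, M = j + 2 →
    (s.map fun p => Fe j p.2).prod ≤
      Real.exp (M / (2 * π) * (2 * sr rk s) + ε * s.length * M) := by
  induction s with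
  | nil =>
    filter_upwards with M j _
    simp [sr]
  | cons p s ih =>
    filter_upwards [ih, ubE p.2 hε] with M h1 h2 j hj
    have h3 := h1 j hj
    have h4 := h2 j hj
    rw [List.map_cons, List.prod_cons]
    have h0 : 0 ≤ (s.map fun p => Fe j p.2).prod := by
      refine List.prod_nonneg fun a ha => ?_
      rw [List.mem_map] at ha
      obtain ⟨p, _, rfl⟩ := ha
      exact norm_nonneg _
    refine (mul_le_mul h4 h3 h0 (Real.exp_pos _).le).trans (le_of_eq ?_)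
    rw [← Real.exp_add]
    congr 1
    have e1 : sr rk (p :: s) = rk p.2 + sr rk s := by simp [sr]
    rw [e1, List.length_cons]
    push_cast
    ring

/-- the growth of the sums -/
theorem low_g {A : ℕ} (hA : A = 1 ∨ A = 2) (n k : ℕ) (hn : 1 ≤ n) (hk : 1 ≤ k)
    (x y : List (Letter × ℕ)) {ε : ℝ} (hε : 0 < ε) : ∀ᶠ M : ℕ in atTop,
    Real.exp (M / (2 * π) * (k * (4 * n * rate A - 2 * (sr rk x + sr rk y))) - ε * M) ≤
      ∑ a ∈ Icc 1 M, ‖br (vh M) (a : ℤ) * tg M (wordg A n k x y) a (M, (M, M)) (vh M)‖ := by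
  obtain ⟨lx, hlx⟩ : ∃ l : ℕ, l = x.length := ⟨_, rfl⟩
  obtain ⟨ly, hly⟩ : ∃ l : ℕ, l = y.length := ⟨_, rfl⟩
  obtain ⟨D, hD⟩ : ∃ D : ℝ, D = 2 * n * k + (lx + ly) * k + 1 := ⟨_, rfl⟩
  have hD0 : 0 < D := by
    rw [hD]
    positivity
  have hη : 0 < ε / D := by positivity
  have hpoly : ∀ᶠ M : ℕ in atTop, (M : ℝ) ^ (2 * n * k + 2 * k) ≤ Real.exp (ε / D * M) := by
    have h1 := (isLittleO_pow_exp_pos_mul_atTop (k := 2 * n * k + 2 * k) hη).bound
      (c := 1) (by norm_num)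
    have h2 := tendsto_natCast_atTop_atTop (R := ℝ) |>.eventually h1
    filter_upwards [h2] with M hM
    rw [Real.norm_of_nonneg (by positivity), Real.norm_of_nonneg (Real.exp_pos _).le, one_mul] at hM
    exact hM
  filter_upwards [LBA hA hη, ubS x hη, ubS y hη, hpoly, eventually_ge_atTop 2] with M h1 hx hy h3 h4
  obtain ⟨j, rfl⟩ : ∃ j, M = j + 2 := ⟨M - 2, by omega⟩
  have hx := hx j rfl
  have hy := hy j rfl
  have e1 : j + 2 - 1 = j + 1 := by omega
  refine le_trans ?_ (top_le j _)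
  obtain ⟨L, Li, g1, g2, g3⟩ := modelG (j + 1)
  have hF : ∀ e, Fe j e = fr (L ^ e) := Fe_eq g3
  have hLB : ((LL (j + 2) (j + 1) (vh (j + 2)) ^ A * UU (j + 2) (j + 1) (vh (j + 2)) ^ A).trace).re =
      fr (L ^ A) := by
    have h5 := g3 (wl (pw A 1))
    rw [wg_wl, wm_pw, pow_one, fr_tr, mg_wl, mw_pw, pow_one] at h5
    have h6 : (LL (j + 2) (j + 1) (vh (j + 2)) ^ A * UU (j + 2) (j + 1) (vh (j + 2)) ^ A).trace =
      ((fr (L ^ A) : ℝ) : ℂ) := h5
    rw [h6, Complex.ofReal_re]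
  rw [e1, hLB] at h1
  have h6 := trace_g (L := L) (Li := Li) (by omega) g1 g2 A n k hn hk x y
  rw [← wg_word] at h6
  have h7' : (wg L Li (wordg A n k x y)).trace =
      (mg (j + 2) (j + 1) (vh (j + 2)) (wordg A n k x y)).trace := (g3 _).symm
  rw [h7'] at h6
  have hpx : pf L x = (x.map fun p => Fe j p.2).prod := by
    unfold pf
    congr 1
    exact List.map_congr_left fun p _ => (hF p.2).symm
  have hpy : pf L y = (y.map fun p => Fe j p.2).prod := by
    unfold pf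
    congr 1
    exact List.map_congr_left fun p _ => (hF p.2).symm
  rw [← hpx, ← hlx] at hx
  rw [← hpy, ← hly] at hy
  have px := pf_nonneg (L := L) x
  have py := pf_nonneg (L := L) y
  obtain ⟨m, hm⟩ : ∃ m : ℝ, m = ((j + 2 : ℕ) : ℝ) := ⟨_, rfl⟩
  have hm' : ((j + 1 + 1 : ℕ) : ℝ) = m := hm.symm
  rw [hm'] at h6
  rw [← hm] at h1 h3 hx hy ⊢
  set tr := ‖(mg (j + 2) (j + 1) (vh (j + 2)) (wordg A n k x y)).trace‖ with htr
  have htr0 : 0 ≤ tr := norm_nonneg _
  have h7 := pow_le_pow_left₀ (Real.exp_pos _).le h1 (2 * n * k)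
  have h8 := pow_le_pow_left₀ (mul_nonneg px py) (mul_le_mul hx hy py (Real.exp_pos _).le) k
  have hm0 : 0 ≤ m := by rw [hm]; positivity
  have h9 : Real.exp (m / (2 * π) * (2 * rate A) - ε / D * m) ^ (2 * n * k) ≤
      Real.exp (ε / D * m) * (Real.exp (m / (2 * π) * (2 * sr rk x) + ε / D * lx * m) *
        Real.exp (m / (2 * π) * (2 * sr rk y) + ε / D * ly * m)) ^ k * tr := by
    refine h7.trans (h6.trans ?_)
    refine mul_le_mul_of_nonneg_right ?_ htr0
    exact mul_le_mul h3 h8 (by positivity) (Real.exp_pos _).le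
  rw [← Real.exp_add (m / (2 * π) * (2 * sr rk x) + ε / D * lx * m), ← Real.exp_nat_mul,
    ← Real.exp_nat_mul, ← Real.exp_add] at h9
  have h10 : Real.exp (m / (2 * π) * (k * (4 * n * rate A - 2 * (sr rk x + sr rk y))) - ε * m) =
      Real.exp (((2 * n * k : ℕ) : ℝ) * (m / (2 * π) * (2 * rate A) - ε / D * m)) *
        (Real.exp (ε / D * m + (k : ℝ) * (m / (2 * π) * (2 * sr rk x) + ε / D * lx * m +
          (m / (2 * π) * (2 * sr rk y) + ε / D * ly * m))))⁻¹ := by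
    rw [← Real.exp_neg, ← Real.exp_add]
    congr 1
    have e3 : ε = ε / D * D := by field_simp
    have e4 : ε * m = ε / D * m * (2 * n * k + (lx + ly) * k + 1) := by
      conv_lhs => rw [e3, hD]
      rw [← hD]
      ring
    rw [e4]
    push_cast
    ring
  rw [h10, ← div_eq_mul_inv, div_le_iff₀ (Real.exp_pos _), mul_comm tr]
  exact h9

end Pool.Agent.U909.CI
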