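import Pool.Agent.U909.CI.Trc
import Pool.Agent.R807.IN2

/-!
# All words: the model and the insertion of syllables
-/

set_option autoImplicit false

namespace Pool.Agent.U909.CI

open Finset Matrix
open Pool.Agent.H550R3.Jones (br brf)
open Pool.Agent.Y482.CY
open Pool.Agent.Y482.CW (Letter Col LLg UUg)
open Pool.Agent.W707.TV (vh Rh Rh_pos br_vh vh_ne)
open Pool.Agent.R807.TQ (pw wl LI UI LI_mul UI_mul LLg_LL UUg_UU syw)
open Pool.Agent.R807.IN (fr fr_nonneg fr_ct fr_conj fr_one fr_mul_le fr_tr fr_tr' wm wm_pw power_mean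
  Lz_conj)

section

variable {N : ℕ}

/-- the matrix of a letter in the model -/
noncomputable def lm (L Li : Matrix (Fin N) (Fin N) ℂ) : Letter → Matrix (Fin N) (Fin N) ℂ
  | (false, false) => L
  | (false, true) => Li
  | (true, false) => Liᴴ
  | (true, true) => Lᴴ

/-- the matrix of a word in the model -/
noncomputable def wg (L Li : Matrix (Fin N) (Fin N) ℂ) : List Letter → Matrix (Fin N) (Fin N) ℂ
  | [] => 1
  | l :: u => wg L Li u * lm L Li l

/-- the dual letter -/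
def dL (l : Letter) : Letter := (!l.1, !l.2)

/-- the dual word -/
def dW (u : List Letter) : List Letter := (u.map dL).reverse

/-- the inverse letter -/
def iL (l : Letter) : Letter := (l.1, !l.2)

/-- the inverse of the matrix of a list of syllables -/
noncomputable def wI (L Li : Matrix (Fin N) (Fin N) ℂ) : List (Letter × ℕ) → Matrix (Fin N) (Fin N) ℂ
  | [] => 1
  | p :: s => lm L Li (iL p.1) ^ p.2 * wI L Li s

/-- the product of the sizes of the syllables -/
noncomputable def pf (L : Matrix (Fin N) (Fin N) ℂ) (s : List (Letter × ℕ)) : ℝ :=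
  (s.map fun p => fr (L ^ p.2)).prod

variable {L Li : Matrix (Fin N) (Fin N) ℂ}

lemma wg_append (u w : List Letter) : wg L Li (u ++ w) = wg L Li w * wg L Li u := by
  induction u with
  | nil => exact (mul_one _).symm
  | cons s u ih =>
    change wg L Li (u ++ w) * _ = _
    rw [ih, mul_assoc]
    rfl

lemma wg_rep (l : Letter) (A : ℕ) : wg L Li (List.replicate A l) = lm L Li l ^ A := by
  induction A with
  | zero => rfl
  | succ A ih =>
    rw [List.replicate_succ]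
    change wg L Li (List.replicate A l) * _ = _
    rw [ih, pow_succ]

lemma wg_wl (u : List Bool) : wg L Li (wl u) = wm L u := by
  induction u with
  | nil => rfl
  | cons s u ih =>
    change wg L Li (wl u) * lm L Li (s, s) = wm L u * (if s then Lᴴ else L)
    rw [ih]
    cases s <;> rfl

lemma lm_dual (l : Letter) : lm L Li (dL l) = (lm L Li l)ᴴ := by
  rcases l with ⟨_ | _, _ | _⟩
  · rfl
  · rfl
  · exact (Matrix.conjTranspose_conjTranspose Li).symm
  · exact (Matrix.conjTranspose_conjTranspose L).symm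

lemma wg_dual (u : List Letter) : wg L Li (dW u) = (wg L Li u)ᴴ := by
  induction u with
  | nil => exact (Matrix.conjTranspose_one).symm
  | cons s u ih =>
    have e : dW (s :: u) = dW u ++ [dL s] := by
      simp [dW]
    rw [e, wg_append, ih]
    change (1 * lm L Li (dL s)) * _ = (wg L Li u * lm L Li s)ᴴ
    rw [Matrix.conjTranspose_mul, one_mul, lm_dual]

lemma lm_inv (h : L * Li = 1) (l : Letter) : lm L Li l * lm L Li (iL l) = 1 := by
  have h1 : Li * L = 1 := mul_eq_one_comm.1 h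
  rcases l with ⟨_ | _, _ | _⟩
  · exact h
  · exact h1
  · change Liᴴ * Lᴴ = 1
    rw [← Matrix.conjTranspose_mul, h, Matrix.conjTranspose_one]
  · change Lᴴ * Liᴴ = 1
    rw [← Matrix.conjTranspose_mul, h1, Matrix.conjTranspose_one]

lemma pow_inv {A B : Matrix (Fin N) (Fin N) ℂ} (h : A * B = 1) (e : ℕ) : A ^ e * B ^ e = 1 := by
  induction e with
  | zero => exact mul_one _
  | succ e ih =>
    rw [pow_succ, pow_succ']
    calc A ^ e * A * (B * B ^ e) = A ^ e * (A * B) * B ^ e := by simp only [mul_assoc]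
      _ = 1 := by rw [h, mul_one, ih]

lemma wg_wI (h : L * Li = 1) (s : List (Letter × ℕ)) : wg L Li (syw s) * wI L Li s = 1 := by
  induction s with
  | nil => exact mul_one _
  | cons p s ih =>
    have e : syw (p :: s) = List.replicate p.2 p.1 ++ syw s := rfl
    rw [e, wg_append, wg_rep]
    change wg L Li (syw s) * lm L Li p.1 ^ p.2 * (lm L Li (iL p.1) ^ p.2 * wI L Li s) = 1
    calc wg L Li (syw s) * lm L Li p.1 ^ p.2 * (lm L Li (iL p.1) ^ p.2 * wI L Li s) =
        wg L Li (syw s) * (lm L Li p.1 ^ p.2 * lm L Li (iL p.1) ^ p.2) * wI L Li s := by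
          simp only [mul_assoc]
      _ = 1 := by rw [pow_inv (lm_inv h p.1), mul_one, ih]

lemma fr_lm (hc : ∀ e : ℕ, fr (Li ^ e) = fr (L ^ e)) (l : Letter) (e : ℕ) :
    fr (lm L Li l ^ e) = fr (L ^ e) := by
  rcases l with ⟨_ | _, _ | _⟩
  · rfl
  · exact hc e
  · change fr (Liᴴ ^ e) = _
    rw [← Matrix.conjTranspose_pow, fr_ct, hc]
  · change fr (Lᴴ ^ e) = _
    rw [← Matrix.conjTranspose_pow, fr_ct]

lemma pf_nonneg (s : List (Letter × ℕ)) : 0 ≤ pf L s := by
  unfold pf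
  refine List.prod_nonneg fun a ha => ?_
  rw [List.mem_map] at ha
  obtain ⟨p, _, rfl⟩ := ha
  exact fr_nonneg _

lemma fr_wI (hc : ∀ e : ℕ, fr (Li ^ e) = fr (L ^ e)) (s : List (Letter × ℕ)) :
    fr (wI L Li s) ≤ pf L s * N := by
  induction s with
  | nil =>
    have e : pf L [] = 1 := rfl
    rw [e, one_mul]
    exact fr_one.le
  | cons p s ih =>
    refine (fr_mul_le _ _).trans ?_
    rw [fr_lm hc]
    have e : pf L (p :: s) = fr (L ^ p.2) * pf L s := rfl
    rw [e]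
    have h2 := mul_le_mul_of_nonneg_left ih (fr_nonneg (L ^ p.2))
    linarith

/-- insertion of syllables -/
theorem insert_g (h : L * Li = 1) (hc : ∀ e : ℕ, fr (Li ^ e) = fr (L ^ e)) (A n : ℕ)
    (x y : List (Letter × ℕ)) :
    fr ((L ^ A * (L ^ A)ᴴ) ^ n) ≤
      (pf L x * pf L y) * N ^ 2 * fr (wg L Li (syw x ++ (wl (pw A n) ++ syw y))) := by
  have h1 : wI L Li y * wg L Li (syw y) = 1 := mul_eq_one_comm.1 (wg_wI h y)
  have h2 : wg L Li (syw x) * wI L Li x = 1 := wg_wI h x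
  have h3 : (L ^ A * (L ^ A)ᴴ) ^ n =
      wI L Li y * wg L Li (syw x ++ (wl (pw A n) ++ syw y)) * wI L Li x := by
    rw [wg_append, wg_append, wg_wl, wm_pw]
    calc (L ^ A * (L ^ A)ᴴ) ^ n = 1 * (L ^ A * (L ^ A)ᴴ) ^ n * 1 := by rw [one_mul, mul_one]
      _ = (wI L Li y * wg L Li (syw y)) * (L ^ A * (L ^ A)ᴴ) ^ n *
          (wg L Li (syw x) * wI L Li x) := by rw [h1, h2]
      _ = _ := by simp only [mul_assoc]
  rw [h3]
  refine (fr_mul_le _ _).trans ?_
  have h4 := fr_mul_le (wI L Li y) (wg L Li (syw x ++ (wl (pw A n) ++ syw y)))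
  have h5 := fr_wI hc y
  have h6 := fr_wI hc x
  have h0 := fr_nonneg (wg L Li (syw x ++ (wl (pw A n) ++ syw y)))
  have hx := fr_nonneg (wI L Li x)
  have px := pf_nonneg (L := L) x
  have py := pf_nonneg (L := L) y
  calc fr (wI L Li y * wg L Li (syw x ++ (wl (pw A n) ++ syw y))) * fr (wI L Li x)
      ≤ ((pf L y * N) * fr (wg L Li (syw x ++ (wl (pw A n) ++ syw y)))) * (pf L x * N) := by
        refine mul_le_mul (h4.trans (mul_le_mul_of_nonneg_right h5 h0)) h6 hx (by positivity)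
    _ = _ := by ring

/-- lower bound for the trace of the power of `w w*` -/
theorem trace_g (hN : 1 ≤ N) (h : L * Li = 1) (hc : ∀ e : ℕ, fr (Li ^ e) = fr (L ^ e))
    (A n k : ℕ) (hn : 1 ≤ n) (hk : 1 ≤ k) (x y : List (Letter × ℕ)) :
    (fr (L ^ A)) ^ (2 * n * k) ≤ (N : ℝ) ^ (2 * n * k + 2 * k) * (pf L x * pf L y) ^ k *
        ‖(((wg L Li (syw x ++ (wl (pw A n) ++ syw y)))ᴴ *
          wg L Li (syw x ++ (wl (pw A n) ++ syw y))) ^ k).trace‖ := by
  obtain ⟨W, hW⟩ : ∃ W, W = wg L Li (syw x ++ (wl (pw A n) ++ syw y)) := ⟨_, rfl⟩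
  have h1 := power_mean (L ^ A) (n := 2 * n) (by omega)
  have h2 := insert_g h hc A n x y
  have h3 : ‖((L ^ A * (L ^ A)ᴴ) ^ (2 * n)).trace‖ = fr ((L ^ A * (L ^ A)ᴴ) ^ n) := by
    have e : ((L ^ A * (L ^ A)ᴴ) ^ n)ᴴ = (L ^ A * (L ^ A)ᴴ) ^ n := by
      rw [Matrix.conjTranspose_pow, Matrix.conjTranspose_mul, Matrix.conjTranspose_conjTranspose]
    have e2 := fr_tr ((L ^ A * (L ^ A)ᴴ) ^ n)
    rw [e, ← pow_add, ← two_mul] at e2
    rw [e2, Complex.norm_real, Real.norm_of_nonneg (fr_nonneg _)]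
  have h4 := power_mean Wᴴ hk
  rw [Matrix.conjTranspose_conjTranspose, fr_ct] at h4
  rw [← hW] at h2 ⊢
  rw [h3] at h1
  have hL := fr_nonneg (L ^ A)
  have hWn := fr_nonneg W
  have px := pf_nonneg (L := L) x
  have py := pf_nonneg (L := L) y
  have hN1 : (1 : ℝ) ≤ N := by exact_mod_cast hN
  have hN0 : (0 : ℝ) < N := by linarith
  -- collect
  obtain ⟨X, hX⟩ : ∃ X, X = pf L x * pf L y := ⟨_, rfl⟩
  have hX0 : 0 ≤ X := by rw [hX]; positivity
  rw [← hX] at h2 ⊢
  have h5 : fr (L ^ A) ^ (2 * n) ≤ (N : ℝ) ^ (2 * n - 1) * (X * N ^ 2 * fr W) :=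
    h1.trans (mul_le_mul_of_nonneg_left h2 (by positivity))
  have h6 : fr (L ^ A) ^ (2 * n) ≤ (N : ℝ) ^ (2 * n + 1) * X * fr W := by
    refine h5.trans (le_of_eq ?_)
    have e : (N : ℝ) ^ (2 * n + 1) = N ^ (2 * n - 1) * N ^ 2 := by
      rw [← pow_add]
      congr 1
      omega
    rw [e]
    ring
  have h7 := pow_le_pow_left₀ (by positivity) h6 k
  rw [← pow_mul, mul_pow, mul_pow, ← pow_mul (N : ℝ)] at h7
  refine h7.trans ?_
  have h8 : fr W ^ k ≤ (N : ℝ) ^ k * ‖((Wᴴ * W) ^ k).trace‖ := by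
    refine h4.trans (mul_le_mul_of_nonneg_right ?_ (norm_nonneg _))
    exact pow_le_pow_right₀ hN1 (by omega)
  calc (N : ℝ) ^ ((2 * n + 1) * k) * X ^ k * fr W ^ k
      ≤ (N : ℝ) ^ ((2 * n + 1) * k) * X ^ k *
        ((N : ℝ) ^ k * ‖((Wᴴ * W) ^ k).trace‖) := mul_le_mul_of_nonneg_left h8 (by positivity)
    _ = _ := by
        have e : 2 * n * k + 2 * k = (2 * n + 1) * k + k := by ring
        rw [e, pow_add (N : ℝ)]
        ring

lemma conj_pow (A : Matrix (Fin N) (Fin N) ℂ) (e : ℕ) :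
    (A.map (starRingEnd ℂ)) ^ e = (A ^ e).map (starRingEnd ℂ) := by
  induction e with
  | zero =>
    rw [pow_zero, pow_zero]
    ext i j
    rw [Matrix.map_apply, Matrix.one_apply]
    split_ifs <;> simp
  | succ e ih => rw [pow_succ, pow_succ, ih, Matrix.map_mul]

end

/-- the operators of all words are similar to words in a matrix, its adjoint and the inverses -/
theorem modelG (k : ℕ) : ∃ L Li : Matrix (Fin (k + 1)) (Fin (k + 1)) ℂ, L * Li = 1 ∧
    (∀ e : ℕ, fr (Li ^ e) = fr (L ^ e)) ∧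
    ∀ u : List Letter, (mg (k + 1) k (vh (k + 1)) u).trace = (wg L Li u).trace := by
  obtain ⟨T, Xt, hT, hX, hY⟩ := Pool.Agent.Y281.CY.p3 k
  obtain ⟨Lt, hL, hU⟩ := Pool.Agent.Y804.CYP.t_P4 (k + 1) (Lz k) (Xz k) T Xt (Lz_low k) (Xz_low k)
    (Xz_dist k) (t_P2 k) hT hX hY
  have hinv : cx T * cx T⁻¹ = 1 := by
    rw [← cx_mul, Matrix.mul_nonsing_inv _ hT, cx_one]
  have hinv' : cx T⁻¹ * cx T = 1 := mul_eq_one_comm.1 hinv
  have hcT : (cx T).map (starRingEnd ℂ) = cx T := by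
    ext i j
    simp [cx]
  have hconj : (Lz k).map (starRingEnd ℂ) * cx T = cx T * Lt.map (starRingEnd ℂ) := by
    have h1 := congrArg (fun M => Matrix.map M (starRingEnd ℂ)) hL
    simp only [Matrix.map_mul] at h1
    rwa [hcT] at h1
  have hLL : Lt.map (starRingEnd ℂ) * Lt = 1 := by
    have h1 : cx T * (Lt.map (starRingEnd ℂ) * Lt) = cx T := by
      rw [← mul_assoc, ← hconj, mul_assoc, ← hL, ← mul_assoc, Lz_conj, one_mul]
    calc Lt.map (starRingEnd ℂ) * Lt = (cx T⁻¹ * cx T) * (Lt.map (starRingEnd ℂ) * Lt) := by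
          rw [hinv', one_mul]
      _ = cx T⁻¹ * (cx T * (Lt.map (starRingEnd ℂ) * Lt)) := by rw [mul_assoc]
      _ = 1 := by rw [h1, hinv']
  have hLL' : Lt * Lt.map (starRingEnd ℂ) = 1 := mul_eq_one_comm.1 hLL
  have phm : ph k 1 * ph k (-1) = 1 := ph_mul k
  refine ⟨Lt, Lt.map (starRingEnd ℂ), hLL', fun e => ?_, fun u => ?_⟩
  · rw [conj_pow, fr_conj]
  have hN : Nz (vh (k + 1)) k := fun l hl0 hl => Pool.Agent.Y80.CY.vh_br (k + 1) l hl0 (by omega)
  have hv := vh_ne (k + 1)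
  obtain ⟨T', hT'⟩ : ∃ T' : Matrix (Fin (k + 1)) (Fin (k + 1)) ℂ, T' = ph k 1 * cx T := ⟨_, rfl⟩
  have hA : LL (k + 1) k (vh (k + 1)) * T' = T' * Lt := by
    rw [hT', mul_assoc, ← hL, Lz_eq]
    calc LL (k + 1) k (vh (k + 1)) * (ph k 1 * cx T) =
        1 * LL (k + 1) k (vh (k + 1)) * ph k 1 * cx T := by rw [one_mul]; simp only [mul_assoc]
      _ = (ph k 1 * ph k (-1)) * LL (k + 1) k (vh (k + 1)) * ph k 1 * cx T := by rw [phm]
      _ = _ := by simp only [mul_assoc]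
  have hB : UU (k + 1) k (vh (k + 1)) * T' = T' * Ltᴴ := by
    rw [hT', mul_assoc, ← hU, Uz_eq t_P1]
    calc UU (k + 1) k (vh (k + 1)) * (ph k 1 * cx T) =
        1 * UU (k + 1) k (vh (k + 1)) * ph k 1 * cx T := by rw [one_mul]; simp only [mul_assoc]
      _ = (ph k 1 * ph k (-1)) * UU (k + 1) k (vh (k + 1)) * ph k 1 * cx T := by rw [phm]
      _ = _ := by simp only [mul_assoc]
  have hl : ∀ l : Letter, ml (k + 1) k (vh (k + 1)) l * T' = T' * lm Lt (Lt.map (starRingEnd ℂ)) l := by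
    intro l
    have f1 : LLg (k + 1, (k + 1, k + 1)) k (vh (k + 1)) = LL (k + 1) k (vh (k + 1)) := LLg_LL _ _ _
    have f2 : UUg (k + 1, (k + 1, k + 1)) k (vh (k + 1)) = UU (k + 1) k (vh (k + 1)) := UUg_UU _ _ _
    rcases l with ⟨_ | _, _ | _⟩
    · change LLg (k + 1, (k + 1, k + 1)) k (vh (k + 1)) * T' = T' * Lt
      rw [f1]
      exact hA
    · change LI (k + 1, (k + 1, k + 1)) k (vh (k + 1)) * T' = T' * Lt.map (starRingEnd ℂ)
      have h1 := LI_mul hv hN (k + 1, (k + 1, k + 1))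
      rw [f1] at h1
      generalize LI (k + 1, (k + 1, k + 1)) k (vh (k + 1)) = Z at *
      calc Z * T' = Z * T' * (Lt * Lt.map (starRingEnd ℂ)) := by rw [hLL', mul_one]
        _ = Z * (T' * Lt) * Lt.map (starRingEnd ℂ) := by simp only [mul_assoc]
        _ = (Z * LL (k + 1) k (vh (k + 1))) * T' * Lt.map (starRingEnd ℂ) := by
            rw [← hA]; simp only [mul_assoc]
        _ = _ := by rw [h1, one_mul]
    · change UI (k + 1, (k + 1, k + 1)) k (vh (k + 1)) * T' = T' * (Lt.map (starRingEnd ℂ))ᴴ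
      have h1 := UI_mul hv hN (k + 1, (k + 1, k + 1))
      rw [f2] at h1
      have h2 : Ltᴴ * (Lt.map (starRingEnd ℂ))ᴴ = 1 := by
        rw [← Matrix.conjTranspose_mul, hLL, Matrix.conjTranspose_one]
      generalize UI (k + 1, (k + 1, k + 1)) k (vh (k + 1)) = Z at *
      calc Z * T' = Z * T' * (Ltᴴ * (Lt.map (starRingEnd ℂ))ᴴ) := by rw [h2, mul_one]
        _ = Z * (T' * Ltᴴ) * (Lt.map (starRingEnd ℂ))ᴴ := by simp only [mul_assoc]
        _ = (Z * UU (k + 1) k (vh (k + 1))) * T' * (Lt.map (starRingEnd ℂ))ᴴ := by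
            rw [← hB]; simp only [mul_assoc]
        _ = _ := by rw [h1, one_mul]
    · change UUg (k + 1, (k + 1, k + 1)) k (vh (k + 1)) * T' = T' * Ltᴴ
      rw [f2]
      exact hB
  have hw : mg (k + 1) k (vh (k + 1)) u * T' = T' * wg Lt (Lt.map (starRingEnd ℂ)) u := by
    induction u with
    | nil => exact (one_mul _).trans (mul_one _).symm
    | cons s u ih =>
      change mg (k + 1) k (vh (k + 1)) u * ml (k + 1) k (vh (k + 1)) s * T' = T' *
          (wg Lt (Lt.map (starRingEnd ℂ)) u * lm Lt (Lt.map (starRingEnd ℂ)) s)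
      rw [mul_assoc, hl, ← mul_assoc, ih, mul_assoc]
  have hS : T' * (cx T⁻¹ * ph k (-1)) = 1 := by
    rw [hT']
    calc (ph k 1 * cx T) * (cx T⁻¹ * ph k (-1)) = ph k 1 * (cx T * cx T⁻¹) * ph k (-1) := by
          simp only [mul_assoc]
      _ = 1 := by rw [hinv, mul_one, phm]
  have h2 := conj_pow' hw 1 hS
  rwa [pow_one, pow_one] at h2

end Pool.Agent.U909.CI
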