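import Pool.Agent.R807.TQ6

/-!
# All words, equal colours: symmetry of the levels
-/

set_option autoImplicit false

namespace Pool.Agent.U909.CI

open Finset Matrix Filter
open Pool.Agent.H550R3.Jones (br brf)
open Pool.Agent.W707.TV (vh Rh vh_ne br_vh_ne)
open Pool.Agent.TH193.CY (crossP2 crossN2)
open Pool.Agent.Y482.CY (sb Nz Fn tri lv B3 dl on12 on23)
open Pool.Agent.Y482.CW
open Pool.Agent.Y235.CYS (P2_J2 PQ YB tl tl_comm wt_mul wt12 wt23 lv_Jp)
open Pool.Agent.W715.VC (J2 Jp JpE J2E on12_Jp on23_Jp)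
open Pool.Agent.Y80.CY (FF orth half FF_neg FF_add main_ineq)
open Pool.Agent.R807.TQ (dif dif_anti FF_gen)
open scoped Real Topology

/-- the matrix of a letter, equal colours -/
noncomputable def Rl (b : ℕ) (v : ℂ) : Letter → Matrix (B3 b) (B3 b) ℂ
  | (false, true) => on12 (crossP2 b b v)
  | (false, false) => on12 (crossN2 b b v)
  | (true, true) => on23 (crossP2 b b v)
  | (true, false) => on23 (crossN2 b b v)

/-- the matrix of a word, equal colours -/
noncomputable def bg (b : ℕ) (v : ℂ) : List Letter → Matrix (B3 b) (B3 b) ℂ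
  | [] => 1
  | l :: u => bg b v u * Rl b v l

lemma rp_g (K : ℕ) (v : ℂ) (u : List Letter) : rp K u (K, (K, K)) v = bg K v u := by
  induction u with
  | nil => rfl
  | cons l u ih =>
    rcases l with ⟨_ | _, _ | _⟩
    · have e1 : rp K ((false, false) :: u) (K, (K, K)) v =
          rp K u (K, (K, K)) v * on12 (XN K K K v) := rfl
      rw [e1, ih, Pool.Agent.Y514.CW.XN_eq]
      rfl
    · have e1 : rp K ((false, true) :: u) (K, (K, K)) v =
          rp K u (K, (K, K)) v * on12 (XP K K K v) := rfl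
      rw [e1, ih, Pool.Agent.Y514.CW.XP_eq]
      rfl
    · have e1 : rp K ((true, false) :: u) (K, (K, K)) v =
          rp K u (K, (K, K)) v * on23 (XN K K K v) := rfl
      rw [e1, ih, Pool.Agent.Y514.CW.XN_eq]
      rfl
    · have e1 : rp K ((true, true) :: u) (K, (K, K)) v =
          rp K u (K, (K, K)) v * on23 (XP K K K v) := rfl
      rw [e1, ih, Pool.Agent.Y514.CW.XP_eq]
      rfl

lemma ta_g (K m : ℕ) (v : ℂ) (u : List Letter) : ta K u (K, (K, K)) v m = tl (bg K v u) m := by
  unfold ta tl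
  refine Finset.sum_congr rfl fun x _ => ?_
  rw [rp_g]
  have hx : inb (K, (K, K)) x.1 x.2.1 x.2.2 := ⟨x.1.isLt, x.2.1.isLt, x.2.2.isLt⟩
  by_cases hm : lv x = m
  · rw [if_pos ⟨hx, hm⟩, if_pos hm]
  · rw [if_neg (fun e => hm e.2), if_neg hm]

/-- symmetry of the levels -/
theorem symg {v : ℂ} (hv : v ≠ 0) {b m : ℕ} (hNz : Nz v b) (hm : m ≤ 3 * (b - 1))
    (u : List Letter) : tl (bg b v u) m = tl (bg b v u) (3 * (b - 1) - m) := by
  have hadm : ∀ k : ℕ, 0 < k → k < b → br v (k : ℤ) ≠ 0 := fun k h1 h2 => hNz k h1 h2.le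
  have hPQ := PQ hv hadm
  have hYB := YB hv hadm
  have hPJ : ∀ p q, crossP2 b b v (J2 p) (J2 q) = crossP2 b b v p q := P2_J2 hadm
  have hQJ : ∀ p q, crossN2 b b v (J2 p) (J2 q) = crossN2 b b v p q := by
    have h1 : (crossP2 b b v).submatrix (J2E b) (J2E b) = crossP2 b b v := by
      ext p q; exact hPJ p q
    have h2 : (crossN2 b b v).submatrix (J2E b) (J2E b) * crossP2 b b v = 1 := by
      conv_lhs => rw [← h1]
      rw [Matrix.submatrix_mul_equiv, hPQ.2, Matrix.submatrix_one_equiv]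
    have h3 : (crossN2 b b v).submatrix (J2E b) (J2E b) = crossN2 b b v := by
      calc (crossN2 b b v).submatrix (J2E b) (J2E b) =
          (crossN2 b b v).submatrix (J2E b) (J2E b) * (crossP2 b b v * crossN2 b b v) := by
            rw [hPQ.1, mul_one]
        _ = crossN2 b b v := by rw [← mul_assoc, h2, one_mul]
    intro p q
    exact congrFun (congrFun h3 p) q
  have i12 : on12 (crossP2 b b v) * on12 (crossN2 b b v) = 1 := by
    change Pool.Agent.H550R3.Jones.on12 _ * Pool.Agent.H550R3.Jones.on12 _ = 1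
    rw [Pool.Agent.W715.VC.on12_mul, hPQ.1, Pool.Agent.W715.VC.on12_one]
  have j12 : on12 (crossN2 b b v) * on12 (crossP2 b b v) = 1 := by
    change Pool.Agent.H550R3.Jones.on12 _ * Pool.Agent.H550R3.Jones.on12 _ = 1
    rw [Pool.Agent.W715.VC.on12_mul, hPQ.2, Pool.Agent.W715.VC.on12_one]
  have i23 : on23 (crossP2 b b v) * on23 (crossN2 b b v) = 1 := by
    change Pool.Agent.H550R3.Jones.on23 _ * Pool.Agent.H550R3.Jones.on23 _ = 1
    rw [Pool.Agent.W715.VC.on23_mul, hPQ.1, Pool.Agent.W715.VC.on23_one]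
  have j23 : on23 (crossN2 b b v) * on23 (crossP2 b b v) = 1 := by
    change Pool.Agent.H550R3.Jones.on23 _ * Pool.Agent.H550R3.Jones.on23 _ = 1
    rw [Pool.Agent.W715.VC.on23_mul, hPQ.2, Pool.Agent.W715.VC.on23_one]
  have w12 := wt12 (b := b) (v := v)
  have w23 := wt23 (b := b) (v := v)
  have t12 : ∀ x y, on12 (crossN2 b b v) (Jp x) (Jp y) = on23 (crossN2 b b v) x y :=
    fun x y => on12_Jp hQJ x y
  have t23 : ∀ x y, on23 (crossP2 b b v) (Jp x) (Jp y) = on12 (crossP2 b b v) x y :=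
    fun x y => on23_Jp hPJ x y
  have t12' : ∀ x y, on12 (crossP2 b b v) (Jp x) (Jp y) = on23 (crossP2 b b v) x y :=
    fun x y => on12_Jp hPJ x y
  have t23' : ∀ x y, on23 (crossN2 b b v) (Jp x) (Jp y) = on12 (crossN2 b b v) x y :=
    fun x y => on23_Jp hQJ x y
  have hRff : Rl b v (false, false) = on12 (crossN2 b b v) := rfl
  have hRft : Rl b v (false, true) = on12 (crossP2 b b v) := rfl
  have hRtf : Rl b v (true, false) = on23 (crossN2 b b v) := rfl
  have hRtt : Rl b v (true, true) = on23 (crossP2 b b v) := rfl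
  -- the reflected word
  obtain ⟨bm', hb0, hb1⟩ : ∃ bm' : List Letter → Matrix (B3 b) (B3 b) ℂ, bm' [] = 1 ∧
      ∀ l u, bm' (l :: u) = bm' u * Rl b v (!l.1, l.2) :=
    ⟨fun u => u.rec 1 fun l _ X => X * Rl b v (!l.1, l.2), rfl, fun _ _ => rfl⟩
  have hbm : ∀ l u, bg b v (l :: u) = bg b v u * Rl b v l := fun _ _ => rfl
  have hbm0 : bg b v [] = 1 := rfl
  generalize bg b v = B at *
  generalize Rl b v = R at *
  generalize on12 (crossP2 b b v) = P12 at *
  generalize on23 (crossP2 b b v) = P23 at *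
  generalize on12 (crossN2 b b v) = Q12 at *
  generalize on23 (crossN2 b b v) = Q23 at *
  have r1 : (B u).submatrix (JpE b) (JpE b) = bm' u := by
    induction u with
    | nil => rw [hbm0, hb0, Matrix.submatrix_one_equiv]
    | cons l u ih =>
      rw [hbm, hb1, ← Matrix.submatrix_mul_equiv _ _ (JpE b) (JpE b) (JpE b), ih]
      congr 1
      rcases l with ⟨_ | _, _ | _⟩
      · rw [hRff]
        change _ = R (true, false)
        rw [hRtf]
        ext x y; exact t12 x y
      · rw [hRft]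
        change _ = R (true, true)
        rw [hRtt]
        ext x y; exact t12' x y
      · rw [hRtf]
        change _ = R (false, false)
        rw [hRff]
        ext x y; exact t23' x y
      · rw [hRtt]
        change _ = R (false, true)
        rw [hRft]
        ext x y; exact t23 x y
  have r2 : tl (B u) m = tl (bm' u) (3 * (b - 1) - m) := by
    unfold tl
    rw [← Equiv.sum_comp (JpE b)]
    refine sum_congr rfl fun x _ => ?_
    have h1 : (B u) (JpE b x) (JpE b x) = (bm' u) x x := by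
      rw [← r1]; rfl
    rw [h1]
    have h2 := lv_Jp x
    have h3 : lv (JpE b x) = m ↔ lv x = 3 * (b - 1) - m := by
      change lv (Jp x) = m ↔ _
      omega
    simp only [h3]
  rw [r2]
  -- conjugation by the half twist
  have s1 : P12 * P23 * P12 * P12 = P23 * (P12 * P23 * P12) := by
    conv_lhs => rw [hYB]
    noncomm_ring
  have s2 : P12 * P23 * P12 * P23 = P12 * (P12 * P23 * P12) := by
    conv_rhs => rw [hYB]
    noncomm_ring
  have s3 : P12 * P23 * P12 * Q12 = Q23 * (P12 * P23 * P12) := by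
    calc P12 * P23 * P12 * Q12 = (Q23 * P23) * (P12 * P23 * P12) * Q12 := by rw [j23, one_mul]
      _ = Q23 * (P23 * (P12 * P23 * P12)) * Q12 := by noncomm_ring
      _ = Q23 * (P12 * P23 * P12 * P12) * Q12 := by rw [s1]
      _ = Q23 * (P12 * P23 * P12) * (P12 * Q12) := by noncomm_ring
      _ = Q23 * (P12 * P23 * P12) := by rw [i12, mul_one]
  have s4 : P12 * P23 * P12 * Q23 = Q12 * (P12 * P23 * P12) := by
    calc P12 * P23 * P12 * Q23 = (Q12 * P12) * (P12 * P23 * P12) * Q23 := by rw [j12, one_mul]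
      _ = Q12 * (P12 * (P12 * P23 * P12)) * Q23 := by noncomm_ring
      _ = Q12 * (P12 * P23 * P12 * P23) * Q23 := by rw [s2]
      _ = Q12 * (P12 * P23 * P12) * (P23 * Q23) := by noncomm_ring
      _ = Q12 * (P12 * P23 * P12) := by rw [i23, mul_one]
  have s6 : P12 * P23 * P12 * (Q12 * Q23 * Q12) = 1 := by
    calc P12 * P23 * P12 * (Q12 * Q23 * Q12) = P12 * P23 * (P12 * Q12) * Q23 * Q12 := by
          noncomm_ring
      _ = P12 * (P23 * Q23) * Q12 := by rw [i12]; noncomm_ring
      _ = 1 := by rw [i23, mul_one, i12]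
  have s7 : (Q12 * Q23 * Q12) * (P12 * P23 * P12) = 1 := by
    calc (Q12 * Q23 * Q12) * (P12 * P23 * P12) = Q12 * Q23 * (Q12 * P12) * P23 * P12 := by
          noncomm_ring
      _ = Q12 * (Q23 * P23) * P12 := by rw [j12]; noncomm_ring
      _ = 1 := by rw [j23, mul_one, j12]
  generalize hD : P12 * P23 * P12 = D at *
  have s5 : D * B u = bm' u * D := by
    clear r1 r2
    induction u with
    | nil => rw [hbm0, hb0, mul_one, one_mul]
    | cons l u ih =>
      rw [hbm, hb1, ← mul_assoc, ih, mul_assoc, mul_assoc]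
      congr 1
      rcases l with ⟨_ | _, _ | _⟩
      · change D * R (false, false) = R (true, false) * D
        rw [hRff, hRtf]
        exact s3
      · change D * R (false, true) = R (true, true) * D
        rw [hRft, hRtt]
        exact s1
      · change D * R (true, false) = R (false, false) * D
        rw [hRff, hRtf]
        exact s4
      · change D * R (true, true) = R (false, true) * D
        rw [hRft, hRtt]
        exact s2
  have w : ∀ x y, (Q12 * Q23 * Q12) x y ≠ 0 → lv x = lv y := wt_mul (wt_mul w12 w23) w12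
  calc tl (bm' u) (3 * (b - 1) - m)
      = tl ((D * B u) * (Q12 * Q23 * Q12)) (3 * (b - 1) - m) := by
        rw [s5, mul_assoc, s6, mul_one]
    _ = tl ((Q12 * Q23 * Q12) * (D * B u)) (3 * (b - 1) - m) := tl_comm _ _ _ w
    _ = tl (B u) (3 * (b - 1) - m) := by rw [← mul_assoc, s7, one_mul]

/-- a level bounds the sum of the invariants from below -/
theorem lower_g {M : ℕ} (hM : 1 ≤ M) (u : List Letter) :
    ‖dif (ta M u (M, (M, M)) (vh M)) (M - 1)‖ ≤
      ∑ a ∈ Icc 1 M, ‖br (vh M) (a : ℤ) * tg M u a (M, (M, M)) (vh M)‖ := by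
  have hv := Pool.Agent.Y80.CY.vh_ne M
  have hv1 := Pool.Agent.Y80.CY.vh_norm M
  have hnz : Nz (vh M) M := fun l hl0 hl => Pool.Agent.Y80.CY.vh_br M l hl0 (by omega)
  have h0 : ∀ m, 3 * (M - 1) < m → ta M u (M, (M, M)) (vh M) m = 0 := by
    intro m hm
    unfold ta
    refine Finset.sum_eq_zero fun x _ => ?_
    rw [if_neg]
    have h1 := x.1.isLt
    have h2 := x.2.1.isLt
    have h3 := x.2.2.isLt
    unfold lv
    omega
  have hs : ∀ m, m ≤ 3 * (M - 1) → ta M u (M, (M, M)) (vh M) m =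
      ta M u (M, (M, M)) (vh M) (3 * (M - 1) - m) := by
    intro m hm
    rw [ta_g, ta_g]
    exact symg hv hnz hm u
  have hineq := main_ineq hM (Pool.Agent.Y80.CY.vh_prim M) hv hv1
    (dif_anti (t := ta M u (M, (M, M)) (vh M)) hM h0 hs)
  have hsum : ∑ a ∈ Icc 1 M, ‖FF (vh M) M (dif (ta M u (M, (M, M)) (vh M))) a‖ =
      ∑ a ∈ Icc 1 M, ‖br (vh M) (a : ℤ) * tg M u a (M, (M, M)) (vh M)‖ := by
    refine Finset.sum_congr rfl fun a ha => ?_
    rw [Finset.mem_Icc] at ha
    refine FF_gen hv hv1 hM h0 a ?_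
    rw [Pool.Agent.Y514.CW.axw (vh M) hv M u a (M, (M, M)) hnz ha.1 ha.2
      ⟨le_rfl, le_rfl, le_rfl⟩]
    refine sum_congr rfl fun m _ => ?_
    congr 2
    simp only
    ring
  rw [hsum] at hineq
  have hMr : (1 : ℝ) ≤ M := by exact_mod_cast hM
  have h5 : 0 ≤ ‖dif (ta M u (M, (M, M)) (vh M)) (M - 1)‖ := norm_nonneg _
  nlinarith

end Pool.Agent.U909.CI
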