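import Pool.Agent.U909.CI.Sym
import Pool.Agent.U909.CY.Key
import Pool.Agent.R807.TQ7

/-!
# All words, equal colours: the trace on the highest weight vectors
-/

set_option autoImplicit false

namespace Pool.Agent.U909.CI

open Finset Matrix Filter
open Pool.Agent.H550R3.Jones (br brf)
open Pool.Agent.Y482.CY (Nz Fn tri dl Er)
open Pool.Agent.Y482.CW
open Pool.Agent.Y61.CY (W res ext Agr res_eq agr_res agr_Er res_dl card_tri Em Em_res
  res_ext inj_aux trace_block mem_tri al_res ext_apply Er_apply)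
open Pool.Agent.U909.CY (FWL)
open Pool.Agent.R807.TQ (dif LI UI LI_mul UI_mul)
open Pool.Agent.Y412.CW (inv_coord)
open scoped Real Topology

/-- the matrix of a letter in coordinates -/
noncomputable def ml (b m : ℕ) (v : ℂ) : Letter → Matrix (Fin (m + 1)) (Fin (m + 1)) ℂ
  | (false, false) => LLg (b, (b, b)) m v
  | (false, true) => LI (b, (b, b)) m v
  | (true, false) => UI (b, (b, b)) m v
  | (true, true) => UUg (b, (b, b)) m v

/-- the matrix of a word in coordinates -/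
noncomputable def mg (b m : ℕ) (v : ℂ) : List Letter → Matrix (Fin (m + 1)) (Fin (m + 1)) ℂ
  | [] => 1
  | l :: u => mg b m v u * ml b m v l

/-- the trace of the word on the functions of level `m` -/
noncomputable def trG (b : ℕ) (v : ℂ) (u : List Letter) (m : ℕ) : ℂ :=
  ∑ p ∈ tri m, FW u (b, (b, b)) v (dl p.1 p.2.1 p.2.2) p.1 p.2.1 p.2.2

lemma sw_eq (l : Letter) (b : ℕ) : sw l (b, (b, b)) = (b, (b, b)) := by
  rcases l with ⟨_ | _, _ | _⟩ <;> rfl

lemma agr_l {m : ℕ} {x y : Fn} (l : Letter) (c : Col) (v : ℂ) (h : Agr m x y) :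
    Agr m (FL l c v x) (FL l c v y) := by
  rcases l with ⟨_ | _, _ | _⟩
  · intro p q k hp
    change ∑ n ∈ range (q + 1), cNg c.1 c.2.1 v p q n * x (q - n) (p + n) k =
      ∑ n ∈ range (q + 1), cNg c.1 c.2.1 v p q n * y (q - n) (p + n) k
    refine sum_congr rfl fun n hn => ?_
    rw [mem_range] at hn
    rw [h _ _ _ (by omega)]
  · intro p q k hp
    change ∑ n ∈ range (p + 1), cPg c.1 c.2.1 v p q n * x (q + n) (p - n) k =
      ∑ n ∈ range (p + 1), cPg c.1 c.2.1 v p q n * y (q + n) (p - n) k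
    refine sum_congr rfl fun n hn => ?_
    rw [mem_range] at hn
    rw [h _ _ _ (by omega)]
  · intro a p q hp
    change ∑ n ∈ range (q + 1), cNg c.2.1 c.2.2 v p q n * x a (q - n) (p + n) =
      ∑ n ∈ range (q + 1), cNg c.2.1 c.2.2 v p q n * y a (q - n) (p + n)
    refine sum_congr rfl fun n hn => ?_
    rw [mem_range] at hn
    rw [h _ _ _ (by omega)]
  · intro a p q hp
    change ∑ n ∈ range (p + 1), cPg c.2.1 c.2.2 v p q n * x a (q + n) (p - n) =
      ∑ n ∈ range (p + 1), cPg c.2.1 c.2.2 v p q n * y a (q + n) (p - n)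
    refine sum_congr rfl fun n hn => ?_
    rw [mem_range] at hn
    rw [h _ _ _ (by omega)]

lemma agr_W {m : ℕ} (v : ℂ) (u : List Letter) : ∀ (c : Col) {x y : Fn}, Agr m x y →
    Agr m (FW u c v x) (FW u c v y) := by
  induction u with
  | nil => exact fun _ _ _ h => h
  | cons l u ih => exact fun c x y h => ih (sw l c) (agr_l l c v h)

/-- the word on the functions of level `m` -/
noncomputable def Ag (b : ℕ) (v : ℂ) (u : List Letter) (m : ℕ) : Module.End ℂ (W m) :=
  (res m).comp ((FWL u (b, (b, b)) v).comp (ext m))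

theorem Ag_res (b : ℕ) (v : ℂ) (m : ℕ) (u : List Letter) (x : Fn) :
    Ag b v u m (res m x) = res m (FW u (b, (b, b)) v x) :=
  res_eq (agr_W v u _ (agr_res m x))

theorem trG_eq (b : ℕ) (v : ℂ) (u : List Letter) (m : ℕ) :
    trG b v u m = LinearMap.trace ℂ (W m) (Ag b v u m) := by
  classical
  rw [LinearMap.trace_eq_matrix_trace ℂ (Pi.basisFun ℂ ↥(tri m))]
  unfold trG Matrix.trace
  rw [← Finset.sum_coe_sort]
  refine sum_congr rfl fun p _ => ?_
  rw [Matrix.diag_apply, LinearMap.toMatrix_apply, Pi.basisFun_apply, Pi.basisFun_repr,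
    ← res_dl, Ag_res]
  rfl

lemma Er_Eg (b : ℕ) (v : ℂ) (x : Fn) : Er b v x = Eg (b, (b, b)) v x := by
  funext a j k
  rw [Er_apply]
  unfold Eg
  simp only
  have e : ((b : ℤ) - 1) + ((b : ℤ) - 1) - 2 * j - 2 * k = 2 * ((b : ℤ) - 1) - 2 * j - 2 * k := by
    ring
  rw [e]

/-- the words commute with the raising operator -/
lemma comm_w {v : ℂ} (hv : v ≠ 0) {K : ℕ} (hN : Nz v (2 * K)) (u : List Letter) :
    ∀ {c : Col} {x : Fn}, Ok K c → Bx c x →
      Eg (swW u c) v (FW u c v x) = FW u c v (Eg c v x) := by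
  induction u with
  | nil => exact fun _ _ => rfl
  | cons l u ih =>
    intro c x hc hx
    change Eg (swW u (sw l c)) v (FW u (sw l c) v (FL l c v x)) = FW u (sw l c) v (FL l c v (Eg c v x))
    rw [ih (Pool.Agent.Y547.CW.Ok_sw l hc) (Pool.Agent.Y528.CW.t_BOX.1 v l c x hx),
      Pool.Agent.Y547.CW.comm_letter Pool.Agent.Y528.CW.t_BOX Pool.Agent.Y858.CW.ecp
        Pool.Agent.Y907.CW.t_ECN hv hN l c hc x hx]

/-- a letter in coordinates -/
lemma co_l {v : ℂ} (hv : v ≠ 0) {b m : ℕ} (hN : Nz v (2 * b)) (hm : m ≤ 2 * b) (l : Letter) {x : Fn}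
    (hbx : Bx (b, (b, b)) x) (hE : Eg (b, (b, b)) v x = 0) (a : Fin (m + 1)) :
    FL l (b, (b, b)) v x a 0 (m - a) = ∑ i : Fin (m + 1), ml b m v l a i * x i 0 (m - i) := by
  have hnz : Nz v m := fun k h1 h2 => hN k h1 (h2.trans hm)
  have hok : Ok b (b, (b, b)) := ⟨le_rfl, le_rfl, le_rfl⟩
  have hy := Pool.Agent.Y547.CW.comm_letter Pool.Agent.Y528.CW.t_BOX Pool.Agent.Y858.CW.ecp
    Pool.Agent.Y907.CW.t_ECN hv hN l (b, (b, b)) hok x hbx
  rw [hE, Pool.Agent.Y547.CW.FL_zero] at hy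
  have hCOL : S_COL := Pool.Agent.Y948.CW.col
  have hCOU : S_COU := Pool.Agent.Y948.CW.cou
  have hIV : S_IV := Pool.Agent.Y185.CW.iv
  rcases l with ⟨_ | _, _ | _⟩
  · exact hCOL v hv (b, (b, b)) m x hnz (fun a j k _ => by rw [hE]; rfl) a
  · refine inv_coord m (LI (b, (b, b)) m v) (LLg (b, (b, b)) m v) (LI_mul hv hnz _) x _ ?_ a
    have h1 := hCOL v hv (sw (false, true) (b, (b, b))) m (FL (false, true) (b, (b, b)) v x) hnz
      (fun a j k _ => by rw [hy]; rfl)
    have iv1 : FL (false, false) (sw (false, true) (b, (b, b))) v (FL (false, true) (b, (b, b)) v x) = x :=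
      hIV v hv b hN false true _ x hok hbx
    rw [iv1] at h1
    exact h1
  · refine inv_coord m (UI (b, (b, b)) m v) (UUg (b, (b, b)) m v) (UI_mul hv hnz _) x _ ?_ a
    have h1 := hCOU v hv (sw (true, false) (b, (b, b))) m (FL (true, false) (b, (b, b)) v x) hnz
      (fun a j k _ => by rw [hy]; rfl)
    have iv1 : FL (true, true) (sw (true, false) (b, (b, b))) v (FL (true, false) (b, (b, b)) v x) = x :=
      hIV v hv b hN true false _ x hok hbx
    rw [iv1] at h1
    exact h1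
  · exact hCOU v hv (b, (b, b)) m x hnz (fun a j k _ => by rw [hE]; rfl) a

/-- a word in coordinates -/
lemma co_w {v : ℂ} (hv : v ≠ 0) {b m : ℕ} (hN : Nz v (2 * b)) (hm : m ≤ 2 * b) (u : List Letter) :
    ∀ {x : Fn}, Bx (b, (b, b)) x → Eg (b, (b, b)) v x = 0 →
    Pool.Agent.Y61.CY.al m (res m (FW u (b, (b, b)) v x)) =
      mg b m v u *ᵥ Pool.Agent.Y61.CY.al m (res m x) := by
  have hok : Ok b (b, (b, b)) := ⟨le_rfl, le_rfl, le_rfl⟩
  induction u with
  | nil =>
    intro x _ _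
    change Pool.Agent.Y61.CY.al m (res m x) = 1 *ᵥ _
    rw [Matrix.one_mulVec]
  | cons l u ih =>
    intro x hbx hE
    have h1 : FW (l :: u) (b, (b, b)) v x = FW u (b, (b, b)) v (FL l (b, (b, b)) v x) := by
      change FW u (sw l (b, (b, b))) v (FL l (b, (b, b)) v x) = _
      rw [sw_eq]
    have hb2 : Bx (b, (b, b)) (FL l (b, (b, b)) v x) := by
      have := Pool.Agent.Y528.CW.t_BOX.1 v l (b, (b, b)) x hbx
      rwa [sw_eq] at this
    have hE2 : Eg (b, (b, b)) v (FL l (b, (b, b)) v x) = 0 := by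
      have hy := Pool.Agent.Y547.CW.comm_letter Pool.Agent.Y528.CW.t_BOX Pool.Agent.Y858.CW.ecp
        Pool.Agent.Y907.CW.t_ECN hv hN l (b, (b, b)) hok x hbx
      rwa [hE, Pool.Agent.Y547.CW.FL_zero, sw_eq] at hy
    rw [h1, ih hb2 hE2]
    have h2 : mg b m v (l :: u) = mg b m v u * ml b m v l := rfl
    rw [h2, ← Matrix.mulVec_mulVec]
    congr 1
    funext a
    exact co_l hv hN hm l hbx hE a

lemma Bx_ext {b m : ℕ} (hm : m < b) (w : W m) : Bx (b, (b, b)) (ext m w) := by
  intro i j k h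
  change (if h : (i, j, k) ∈ tri m then w ⟨(i, j, k), h⟩ else 0) = 0
  rw [dif_neg]
  intro h2
  rw [mem_tri] at h2
  simp only at h2
  apply h
  exact ⟨by simp only; omega, by simp only; omega, by simp only; omega⟩

lemma Lv_ext {m : ℕ} (w : W m) : Lv m (ext m w) := by
  intro i j k h
  change (if h : (i, j, k) ∈ tri m then w ⟨(i, j, k), h⟩ else 0) = 0
  rw [dif_neg]
  intro h2
  rw [mem_tri] at h2
  exact h h2

theorem trcg {v : ℂ} (hv : v ≠ 0) {b m : ℕ} (hN : Nz v (2 * b)) (hm : m + 1 < b) (u : List Letter) :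
    (mg b (m + 1) v u).trace = trG b v u (m + 1) - trG b v u m := by
  rw [trG_eq, trG_eq]
  have hok : Ok b (b, (b, b)) := ⟨le_rfl, le_rfl, le_rfl⟩
  have hsw : swW u (b, (b, b)) = (b, (b, b)) := Pool.Agent.Y672.CW.swW_diag u b
  have hN1 : Nz v (m + 1) := fun l h1 h2 => hN l h1 (by omega)
  set A := Ag b v u (m + 1) with hA
  set A' := Ag b v u m with hA'
  set E := Em b v m with hE
  have hEA : ∀ w, E (A w) = A' (E w) := by
    intro w
    have hw : w = res (m + 1) (ext (m + 1) w) := (res_ext _ w).symm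
    have hb := Bx_ext hm w
    have h1 : A w = res (m + 1) (FW u (b, (b, b)) v (ext (m + 1) w)) := by
      conv_lhs => rw [hw]
      rw [hA, Ag_res]
    have h2 : E w = res m (Er b v (ext (m + 1) w)) := by
      conv_lhs => rw [hw]
      rw [hE, Em_res]
    rw [h1, h2, hE, Em_res, hA', Ag_res, Er_Eg, Er_Eg]
    have h3 := comm_w hv hN u hok hb
    rw [hsw] at h3
    rw [h3]
  have hαA : ∀ w, E w = 0 → Pool.Agent.Y61.CY.al (m + 1) (A w) =
      mg b (m + 1) v u *ᵥ Pool.Agent.Y61.CY.al (m + 1) w := by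
    intro w hw0
    have hw : w = res (m + 1) (ext (m + 1) w) := (res_ext _ w).symm
    have hb := Bx_ext hm w
    have hl := Lv_ext w
    have h1 : A w = res (m + 1) (FW u (b, (b, b)) v (ext (m + 1) w)) := by
      conv_lhs => rw [hw]
      rw [hA, Ag_res]
    have h2 : E w = res m (Er b v (ext (m + 1) w)) := by
      conv_lhs => rw [hw]
      rw [hE, Em_res]
    have h3 : Eg (b, (b, b)) v (ext (m + 1) w) = 0 := by
      have h4 := Pool.Agent.Y528.CW.t_BOX.2.2.2.1 v (b, (b, b)) m (ext (m + 1) w) hl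
      funext i j k
      by_cases hijk : i + j + k = m
      · rw [h2] at hw0
        have h5 := congrFun hw0 ⟨(i, j, k), mem_tri.2 hijk⟩
        rw [Er_Eg] at h5
        exact h5
      · exact h4 i j k hijk
    have h6 := co_w hv hN (by omega : m + 1 ≤ 2 * b) u hb h3
    rw [res_ext] at h6
    rw [h1]
    exact h6
  have hfr : Module.finrank ℂ (W (m + 1)) =
      Module.finrank ℂ ((Fin (m + 1 + 1) → ℂ) × W m) := by
    rw [Module.finrank_prod, Module.finrank_fintype_fun_eq_card,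
      Module.finrank_fintype_fun_eq_card, Module.finrank_fintype_fun_eq_card, Fintype.card_fin,
      Fintype.card_coe, Fintype.card_coe, card_tri]
  set Φ := LinearMap.linearEquivOfInjective ((Pool.Agent.Y61.CY.al (m + 1)).prod E)
    (inj_aux hv m hN1) hfr with hΦ
  have hΦa : ∀ w, Φ w = (Pool.Agent.Y61.CY.al (m + 1) w, E w) := fun w => rfl
  have key := trace_block (Φ.conj A) (Matrix.toLin' (mg b (m + 1) v u)) A' (by
    intro u'
    have h1 : Φ (Φ.symm (u', 0)) = (u', 0) := Φ.apply_symm_apply _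
    rw [hΦa, Prod.mk.injEq] at h1
    rw [LinearEquiv.conj_apply_apply, hΦa, hαA _ h1.2, hEA, h1.1, h1.2, map_zero,
      Matrix.toLin'_apply]) (by
    intro u' w
    have h1 : Φ (Φ.symm (u', w)) = (u', w) := Φ.apply_symm_apply _
    rw [hΦa, Prod.mk.injEq] at h1
    rw [LinearEquiv.conj_apply_apply, hΦa, hEA, h1.2])
  rw [LinearMap.trace_conj', Matrix.trace_toLin'_eq] at key
  rw [key]
  ring

lemma ta_lowg {K m : ℕ} {v : ℂ} (hv : v ≠ 0) (hN : Nz v (2 * K)) (hm : m < K) (u : List Letter) :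
    ta K u (K, (K, K)) v m = trG K v u m := by
  rw [Pool.Agent.Y182.CW.t_CNV v hv K hN u (K, (K, K)) m ⟨le_rfl, le_rfl, le_rfl⟩
    (Pool.Agent.Y672.CW.swW_diag _ K)]
  unfold trG
  refine sum_congr rfl fun p hp => ?_
  rw [mem_tri] at hp
  have h1 : p.1 < K := by omega
  have h2 : p.2.1 < K := by omega
  have h3 : p.2.2 < K := by omega
  rw [if_pos ⟨h1, h2, h3⟩]

/-- the trace of the matrices on the level `M - 1` -/
theorem dif_g {k : ℕ} (u : List Letter) :
    dif (ta (k + 2) u (k + 2, (k + 2, k + 2)) (Pool.Agent.W707.TV.vh (k + 2))) (k + 1) =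
      (mg (k + 2) (k + 1) (Pool.Agent.W707.TV.vh (k + 2)) u).trace := by
  have hv := Pool.Agent.Y80.CY.vh_ne (k + 2)
  have hnz : Nz (Pool.Agent.W707.TV.vh (k + 2)) (2 * (k + 2)) :=
    fun l hl0 hl => Pool.Agent.Y80.CY.vh_br (k + 2) l hl0 (by omega)
  rw [trcg hv hnz (by omega) u]
  unfold dif
  rw [if_neg (by omega), ta_lowg hv hnz (by omega), Nat.add_sub_cancel,
    ta_lowg hv hnz (by omega)]

end Pool.Agent.U909.CI
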