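import Pool.Agent.R807.IN4

/-!
# The volume of a fan of layers
-/

set_option autoImplicit false

namespace Pool.Agent.U909.CI

open Finset MeasureTheory
open GapVol (lob)
open scoped Real

/-- `Λ(y) ≤ y (1 + log (π/4)) - y log y` -/
lemma lob_le {y : ℝ} (h0 : 0 < y) (h1 : y ≤ π / 2) :
    lob y ≤ y * (1 + Real.log (π / 4)) - y * Real.log y := by
  have hp := Real.pi_pos
  have e := GapVol.lob_sub 0 y
  rw [GapVol.lob_zero, sub_zero] at e
  have hint : IntervalIntegrable (fun t : ℝ => -(Real.log (4 / π) + Real.log t)) volume 0 y :=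
    (IntervalIntegrable.add intervalIntegrable_const intervalIntegral.intervalIntegrable_log').neg
  have h2 : ∫ t in (0 : ℝ)..y, GapVol.g t ≤ ∫ t in (0 : ℝ)..y, -(Real.log (4 / π) + Real.log t) := by
    refine intervalIntegral.integral_mono_on_of_le_Ioo h0.le (GapVol.g_int 0 y) hint ?_
    intro t ht
    have h3 := Real.mul_le_sin ht.1.le (ht.2.le.trans h1)
    have h4 : 0 < 4 / π * t := by have := ht.1; positivity
    have h5 : 4 / π * t ≤ 2 * Real.sin t := by
      have : 4 / π * t = 2 * (2 / π * t) := by ring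
      linarith
    have h6 := Real.log_le_log h4 h5
    rw [Real.log_mul (by positivity) ht.1.ne'] at h6
    unfold GapVol.g
    linarith
  rw [e]
  refine h2.trans (le_of_eq ?_)
  rw [intervalIntegral.integral_neg, intervalIntegral.integral_add intervalIntegrable_const
    intervalIntegral.intervalIntegrable_log', intervalIntegral.integral_const, integral_log,
    smul_eq_mul]
  have h7 : Real.log (4 / π) = -Real.log (π / 4) := by
    rw [← Real.log_inv]
    congr 1
    field_simp
  rw [h7]
  ring

/-- `Λ(x) - Λ(x + y) ≤ y log 2` -/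
lemma lob_diff {x y : ℝ} (h0 : 0 ≤ y) : lob x - lob (x + y) ≤ y * Real.log 2 := by
  have e := GapVol.lob_sub x (x + y)
  have h2 : ∫ _t in x..(x + y), (-Real.log 2 : ℝ) ≤ ∫ t in x..(x + y), GapVol.g t := by
    refine intervalIntegral.integral_mono_on (by linarith) intervalIntegrable_const
      (GapVol.g_int _ _) ?_
    intro t _
    unfold GapVol.g
    have h3 : Real.log (2 * Real.sin t) ≤ Real.log 2 := by
      rw [← Real.log_abs]
      by_cases h : Real.sin t = 0
      · rw [h]
        simp
        exact Real.log_nonneg (by norm_num)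
      · have h4 : 0 < |2 * Real.sin t| := abs_pos.2 (mul_ne_zero two_ne_zero h)
        refine Real.log_le_log h4 ?_
        rw [abs_mul, abs_two]
        have := Real.abs_sin_le_one t
        linarith
    linarith
  rw [intervalIntegral.integral_const, smul_eq_mul] at h2
  rw [← e] at h2
  linarith

/-- the volume of a tetrahedron with the angle `y` -/
lemma tet_y {x y z : ℝ} (hy : 0 < y) (hyp : y < π) (h : x + y + z = π) :
    lob x + lob y + lob z ≤ y * (2 - Real.log y) := by
  have hp := Real.pi_pos
  have hp3 := Real.pi_gt_three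
  have hp4 := Real.pi_lt_d2
  have h1 := lob_diff (x := x) hy.le
  have h2 : lob z = -lob (x + y) := by
    have := Pool.Agent.R807.TQ.lob_rfl (x + y)
    rw [← this]
    congr 1
    linarith
  rcases le_total y (π / 2) with h3 | h3
  · have h4 := lob_le hy h3
    have h5 : Real.log (π / 4) + Real.log 2 ≤ 1 := by
      rw [← Real.log_mul (by positivity) (by norm_num)]
      have h6 := Real.log_le_sub_one_of_pos (show 0 < π / 4 * 2 by positivity)
      linarith
    have h7 := mul_le_mul_of_nonneg_left h5 hy.le
    rw [h2]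
    linarith
  · have h4 : lob y ≤ 0 := by
      have h5 := Pool.Agent.R807.TQ.lob_rfl y
      have h6 : 0 ≤ lob (π - y) := EvenVol.LobIneq.lob_nonneg (by linarith) (by linarith)
      linarith
    have h5 : Real.log 2 + Real.log y ≤ 2 := by
      rw [← Real.log_mul (by norm_num) hy.ne']
      have h6 : 2 * y ≤ Real.exp 2 := by
        have h7 := Real.exp_one_gt_d9
        have h8 : Real.exp 2 = Real.exp 1 * Real.exp 1 := by
          rw [← Real.exp_add]
          norm_num
        rw [h8]
        nlinarith
      have h9 := Real.log_le_log (by positivity) h6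
      rwa [Real.log_exp] at h9
    have h7 := mul_le_mul_of_nonneg_left h5 hy.le
    rw [h2]
    linarith

/-- an odd function -/
noncomputable def ps (t : ℝ) : ℝ := t - t * Real.log t

lemma ps_neg (t : ℝ) : ps (-t) = -ps t := by
  unfold ps
  rw [Real.log_neg_eq_log]
  ring

/-- monotonicity for positive arguments -/
lemma mono_pos {R q p : ℝ} (hq : 0 < q) (hqp : q ≤ p) (hp : p ≤ R) :
    ps q + q * Real.log R ≤ ps p + p * Real.log R := by
  have hp0 : 0 < p := hq.trans_le hqp
  unfold ps
  have h1 : Real.log p - Real.log q ≤ p / q - 1 := by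
    rw [← Real.log_div hp0.ne' hq.ne']
    exact Real.log_le_sub_one_of_pos (by positivity)
  have h2 : q * (Real.log p - Real.log q) ≤ p - q := by
    have h3 := mul_le_mul_of_nonneg_left h1 hq.le
    have h4 : q * (p / q - 1) = p - q := by
      field_simp
    linarith
  have h5 : Real.log p ≤ Real.log R := Real.log_le_log hp0 hp
  nlinarith

lemma pos_of {R p : ℝ} (h0 : 0 ≤ p) (hp : p ≤ R) : 0 ≤ ps p + p * Real.log R := by
  rcases h0.eq_or_lt with h | h
  · rw [← h]
    simp [ps]
  · have h5 : Real.log p ≤ Real.log R := Real.log_le_log h hp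
    unfold ps
    nlinarith

lemma mono_all {R q p : ℝ} (hq : -R ≤ q) (hqp : q ≤ p) (hp : p ≤ R) :
    ps q + q * Real.log R ≤ ps p + p * Real.log R := by
  rcases lt_or_ge 0 q with h | h
  · exact mono_pos h hqp hp
  · rcases lt_or_ge p 0 with h2 | h2
    · have h3 := mono_pos (R := R) (q := -p) (p := -q) (by linarith) (by linarith) (by linarith)
      rw [ps_neg, ps_neg] at h3
      linarith
    · have h3 := pos_of h2 hp
      have h4 := pos_of (R := R) (p := -q) (by linarith) (by linarith)
      rw [ps_neg] at h4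
      linarith

/-- the potential -/
noncomputable def GG (a b : ℝ) : ℝ :=
  ps (b - a) + (1 / 2 + Real.log 2) * (b - a) + (b - a) * (π - (a + b) / 2) / 2

/-- the volume of a layer which is not a hinge layer -/
theorem fan {a b c : ℝ} (ha : 0 < a) (hb : b < π) (hc : 0 < c)
    (hy : 0 < (2 * b - a - c) / 2) :
    lob ((a + c) / 2) + lob ((2 * b - a - c) / 2) + lob (π - b) ≤ GG a b - GG b c := by
  have hp := Real.pi_pos
  obtain ⟨p, hpd⟩ : ∃ p, p = b - a := ⟨_, rfl⟩
  obtain ⟨q, hqd⟩ : ∃ q, q = c - b := ⟨_, rfl⟩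
  obtain ⟨y, hyd⟩ : ∃ y, y = (2 * b - a - c) / 2 := ⟨_, rfl⟩
  have hpq : p - q = 2 * y := by rw [hpd, hqd, hyd]; ring
  rw [← hyd] at hy ⊢
  have hyp : y < π := by rw [hyd]; linarith
  have h1 := tet_y (x := (a + c) / 2) (z := π - b) hy hyp (by rw [hyd]; ring)
  have hqp : q ≤ p := by linarith
  have hS : 0 < p ^ 2 + q ^ 2 := by
    rcases eq_or_ne p 0 with h | h
    · have : q ≠ 0 := by
        intro h2
        rw [h, h2] at hpq
        linarith
      positivity
    · positivity
  obtain ⟨R, hR⟩ : ∃ R, R = √(p ^ 2 + q ^ 2) := ⟨_, rfl⟩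
  have hR0 : 0 < R := by rw [hR]; exact Real.sqrt_pos.2 hS
  have hR2 : R ^ 2 = p ^ 2 + q ^ 2 := by rw [hR]; exact Real.sq_sqrt hS.le
  have hpR : p ≤ R := by
    refine le_of_sq_le_sq ?_ hR0.le
    nlinarith [sq_nonneg q]
  have hqR : -R ≤ q := by
    have : -q ≤ R := by
      refine le_of_sq_le_sq ?_ hR0.le
      nlinarith [sq_nonneg p]
    linarith
  have h2 := mono_all hqR hqp hpR
  -- Young
  have h3 : -(y * Real.log y) ≤ R ^ 2 / 4 - y - y * Real.log (R ^ 2 / 4) := by
    have h4 := Real.log_le_sub_one_of_pos (show 0 < R ^ 2 / 4 / y by positivity)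
    rw [Real.log_div (by positivity) hy.ne'] at h4
    have h5 := mul_le_mul_of_nonneg_left h4 hy.le
    have h6 : y * (R ^ 2 / 4 / y - 1) = R ^ 2 / 4 - y := by
      field_simp
    rw [h6] at h5
    linarith
  have h4 : Real.log (R ^ 2 / 4) = 2 * Real.log R - 2 * Real.log 2 := by
    rw [Real.log_div (by positivity) (by norm_num), Real.log_pow]
    have : (4 : ℝ) = 2 ^ 2 := by norm_num
    rw [this, Real.log_pow]
    push_cast
    ring
  rw [h4] at h3
  -- the quadratic part
  have h5 : (p ^ 2 + q ^ 2) / 2 ≤ p * (π - (a + b) / 2) - q * (π - (b + c) / 2) := by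
    have e : p * (π - (a + b) / 2) - q * (π - (b + c) / 2) =
        (p ^ 2 + q ^ 2) / 2 + (p - q) * (π - b) := by
      have ea : a = b - p := by rw [hpd]; ring
      have ec : c = b + q := by rw [hqd]; ring
      rw [ea, ec]
      ring
    rw [e]
    have : 0 ≤ (p - q) * (π - b) := mul_nonneg (by linarith) (by linarith)
    linarith
  have e1 : GG a b = ps p + (1 / 2 + Real.log 2) * p + p * (π - (a + b) / 2) / 2 := by
    rw [hpd]
    rfl
  have e2 : GG b c = ps q + (1 / 2 + Real.log 2) * q + q * (π - (b + c) / 2) / 2 := by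
    rw [hqd]
    rfl
  rw [e1, e2]
  have h6 : (p - q) * Real.log R = 2 * y * Real.log R := by rw [hpq]
  have h7 : (p - q) * Real.log 2 = 2 * y * Real.log 2 := by rw [hpq]
  nlinarith

/-- the size of the potential -/
theorem GG_le {a b : ℝ} (ha : 0 < a) (ha1 : a < π) (hb : 0 < b) (hb1 : b < π) :
    |GG a b| ≤ 29 / 4 := by
  have hp := Real.pi_pos
  have hp1 := Real.pi_gt_d6
  have hp2 := Real.pi_lt_d6
  have key : ∀ a b : ℝ, 0 < a → a ≤ b → b < π → |GG a b| ≤ 29 / 4 := by
    intro a b ha hab hb
    obtain ⟨t, ht⟩ : ∃ t, t = b - a := ⟨_, rfl⟩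
    have ht0 : 0 ≤ t := by linarith
    have ht1 : t < π := by linarith
    have h1 : |ps t| ≤ 1 := by
      unfold ps
      rcases ht0.eq_or_lt with h | h
      · rw [← h]; simp
      · rw [abs_le]
        constructor
        · -- t log t - t ≤ 1
          have h3 : Real.log t ≤ 1.3 := by
            have h6 : Real.log t ≤ Real.log (Real.exp 1.2) := by
              refine Real.log_le_log h ?_
              have h7 : (1.2 : ℝ) + 1 ≤ Real.exp 1.2 := Real.add_one_le_exp _
              have h8 : Real.exp 1.2 = Real.exp 1 * Real.exp 0.2 := by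
                rw [← Real.exp_add]
                norm_num
              have h9 := Real.exp_one_gt_d9
              have h10 : (0.2 : ℝ) + 1 ≤ Real.exp 0.2 := Real.add_one_le_exp _
              rw [h8]
              nlinarith
            rw [Real.log_exp] at h6
            linarith
          nlinarith
        · have h2 := Real.log_le_sub_one_of_pos (show 0 < t⁻¹ by positivity)
          rw [Real.log_inv] at h2
          have h3 := mul_le_mul_of_nonneg_left h2 ht0
          have h4 : t * (t⁻¹ - 1) = 1 - t := by field_simp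
          rw [h4] at h3
          linarith
    have e1 : GG a b = ps t + (1 / 2 + Real.log 2) * t + t * (π - (a + b) / 2) / 2 := by
      rw [ht]
      rfl
    rw [e1]
    have h5 := Real.log_two_lt_d9
    have h5' := Real.log_two_gt_d9
    have h6 : 0 ≤ (1 / 2 + Real.log 2) * t := mul_nonneg (by linarith) ht0
    have h7 : (1 / 2 + Real.log 2) * t ≤ 3.7485 := by nlinarith
    have h8 : 0 ≤ t * (π - (a + b) / 2) := mul_nonneg ht0 (by linarith)
    have h9 : t * (π - (a + b) / 2) ≤ π ^ 2 / 2 := by
      have h10 : t * (π - (a + b) / 2) ≤ t * (π - t / 2) :=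
        mul_le_mul_of_nonneg_left (by linarith) ht0
      nlinarith [sq_nonneg (π - t)]
    have h11 : π ^ 2 ≤ 9.8697 := by nlinarith
    rw [abs_le] at h1 ⊢
    constructor
    · linarith [h1.1]
    · linarith [h1.2]
  have hsym : GG b a = -GG a b := by
    unfold GG
    have e : a - b = -(b - a) := by ring
    rw [e, ps_neg]
    ring
  rcases le_total a b with h | h
  · exact key a b ha h hb1
  · have h1 := key b a hb h ha1
    rwa [hsym, abs_neg] at h1

end Pool.Agent.U909.CI
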