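import Pool.Agent.U909.CI.Vol1

/-!
# An upper bound for the volume of the layered triangulation
-/

set_option autoImplicit false

namespace Pool.Agent.U909.CI

open Finset
open GapVol (lob)
open Pool.Agent.R807.TQ (pw)
open Pool.Agent.R807.IN (Hinge hX hY hZ hAngle hvol hV hinges lett hinge_per tet_le chg chg_eq dual pows
  wx dual_append dual_pw)
open scoped Real

/-- the hinge layers which are followed by a layer which is not a hinge layer -/
def starts (u : List Bool) : ℕ :=
  ((range u.length).filter fun i : ℕ => Hinge u (i : ℤ) ∧ ¬ Hinge u ((i : ℤ) + 1)).card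

theorem vol_fan (u : List Bool) {w : ℤ → ℝ} (hw : hAngle u w) :
    hvol u w ≤ 2 * (3 * lob (π / 3)) * hinges u + 29 * starts u := by
  classical
  obtain ⟨hper, hang⟩ := hw
  have hsum : ∀ i, hX u w i + hY u w i + hZ w i = π := by
    intro i
    unfold hX hY hZ
    split_ifs <;> ring
  have hpos : ∀ i, 0 < w i := by
    intro i
    have h1 := hsum i
    obtain ⟨a1, a2, a3⟩ := hang i
    unfold hZ at h1 a3
    linarith
  have hlt : ∀ i, w i < π := by
    intro i
    have a3 := (hang i).2.2
    unfold hZ at a3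
    linarith
  obtain ⟨g, hg⟩ : ∃ g : ℤ → ℝ, ∀ i, g i = if Hinge u i ∧ Hinge u (i + 1) then 0 else
    GG (w i) (w (i + 1)) + 29 / 4 := ⟨_, fun i => rfl⟩
  have hg0 : ∀ i, 0 ≤ g i := by
    intro i
    rw [hg]
    split_ifs
    · exact le_rfl
    · have := (abs_le.1 (GG_le (hpos i) (hlt i) (hpos (i + 1)) (hlt (i + 1)))).1
      linarith
  have hg1 : ∀ i, g i ≤ 29 / 2 := by
    intro i
    rw [hg]
    split_ifs
    · norm_num
    · have := (abs_le.1 (GG_le (hpos i) (hlt i) (hpos (i + 1)) (hlt (i + 1)))).2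
      linarith
  have hlayer : ∀ i : ℤ, lob (hX u w i) + lob (hY u w i) + lob (hZ w i) ≤
      (g (i - 1) - g i) + (if Hinge u i then 3 * lob (π / 3) else 0) +
        (if Hinge u i ∧ ¬ Hinge u (i + 1) then 29 / 2 else 0) := by
    intro i
    obtain ⟨a1, a2, a3⟩ := hang i
    by_cases h : Hinge u i
    · have h1 := tet_le a1.le a2.le a3.le (hsum i)
      rw [if_pos h]
      by_cases h2 : Hinge u (i + 1)
      · rw [if_neg (fun h3 => h3.2 h2)]
        have h4 : g i = 0 := by rw [hg, if_pos ⟨h, h2⟩]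
        have := hg0 (i - 1)
        linarith
      · rw [if_pos ⟨h, h2⟩]
        have := hg0 (i - 1)
        have := hg1 i
        linarith
    · rw [if_neg h, if_neg (fun h3 => h h3.1)]
      have e1 : g (i - 1) = GG (w (i - 1)) (w i) + 29 / 4 := by
        rw [hg, if_neg]
        · rw [sub_add_cancel]
        · rw [sub_add_cancel]
          exact fun h3 => h h3.2
      have e2 : g i = GG (w i) (w (i + 1)) + 29 / 4 := by
        rw [hg, if_neg (fun h3 => h h3.1)]
      have hXe : hX u w i = (w (i - 1) + w (i + 1)) / 2 := by unfold hX; rw [if_neg h]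
      have hYe : hY u w i = (2 * w i - w (i - 1) - w (i + 1)) / 2 := by unfold hY; rw [if_neg h]
      rw [hYe] at a2
      have h1 := fan (a := w (i - 1)) (b := w i) (c := w (i + 1)) (hpos _) (hlt _) (hpos _) a2
      rw [hXe, hYe, e1, e2]
      have e3 : hZ w i = π - w i := rfl
      rw [e3]
      linarith
  have hgper : ∀ i, g (i + u.length) = g i := by
    intro i
    rw [hg, hg]
    have h1 : Hinge u (i + u.length) ↔ Hinge u i := hinge_per u (by rw [Int.add_emod_right])
    have h2 : Hinge u (i + u.length + 1) ↔ Hinge u (i + 1) := hinge_per u (by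
      rw [show i + (u.length : ℤ) + 1 = i + 1 + u.length by ring, Int.add_emod_right])
    have h3 : w (i + u.length + 1) = w (i + 1) := by
      rw [show i + (u.length : ℤ) + 1 = i + 1 + u.length by ring, hper]
    rw [h3, hper]
    by_cases h : Hinge u i ∧ Hinge u (i + 1)
    · rw [if_pos h, if_pos (by rw [h1, h2]; exact h)]
    · rw [if_neg h, if_neg (by rw [h1, h2]; exact h)]
  have htel : ∑ i ∈ range u.length, (g ((i : ℤ) - 1) - g (i : ℤ)) = 0 := by
    have h1 := Finset.sum_range_sub' (fun i : ℕ => g ((i : ℤ) - 1)) u.length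
    have h2 : ∑ i ∈ range u.length, (g ((i : ℤ) - 1) - g (i : ℤ)) =
        ∑ i ∈ range u.length, (g ((i : ℤ) - 1) - g (((i + 1 : ℕ) : ℤ) - 1)) := by
      refine sum_congr rfl fun i _ => ?_
      congr 2
      push_cast
      ring
    rw [h2, h1]
    have h3 := hgper (-1)
    have e1 : (((0 : ℕ) : ℤ) - 1) = -1 := by norm_num
    have e2 : ((u.length : ℤ) - 1) = -1 + u.length := by ring
    rw [e1, e2, h3, sub_self]
  have h1 : ∑ i ∈ range u.length, (lob (hX u w i) + lob (hY u w i) + lob (hZ w i)) ≤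
      ∑ i ∈ range u.length, ((g ((i : ℤ) - 1) - g (i : ℤ)) +
        (if Hinge u (i : ℤ) then 3 * lob (π / 3) else 0) +
        (if Hinge u (i : ℤ) ∧ ¬ Hinge u ((i : ℤ) + 1) then 29 / 2 else 0)) :=
    sum_le_sum fun i _ => hlayer i
  have h1' : ∑ i ∈ range u.length, ((g ((i : ℤ) - 1) - g (i : ℤ)) +
        (if Hinge u (i : ℤ) then 3 * lob (π / 3) else 0) +
        (if Hinge u (i : ℤ) ∧ ¬ Hinge u ((i : ℤ) + 1) then (29 / 2 : ℝ) else 0)) =
      ∑ i ∈ range u.length, (g ((i : ℤ) - 1) - g (i : ℤ)) +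
        ∑ i ∈ range u.length, (if Hinge u (i : ℤ) then 3 * lob (π / 3) else 0) +
        ∑ i ∈ range u.length, (if Hinge u (i : ℤ) ∧ ¬ Hinge u ((i : ℤ) + 1) then (29 / 2 : ℝ) else 0) := by
    rw [sum_add_distrib, sum_add_distrib]
  rw [h1', htel] at h1
  have h2 : ∑ i ∈ range u.length, (if Hinge u (i : ℤ) then 3 * lob (π / 3) else 0) =
      3 * lob (π / 3) * hinges u := by
    unfold hinges
    rw [← sum_filter, sum_const, nsmul_eq_mul]
    ring
  have h3 : ∑ i ∈ range u.length, (if Hinge u (i : ℤ) ∧ ¬ Hinge u ((i : ℤ) + 1) then (29 / 2 : ℝ) else 0) =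
      29 / 2 * starts u := by
    unfold starts
    rw [← sum_filter, sum_const, nsmul_eq_mul]
    ring
  rw [h2, h3] at h1
  unfold hvol
  rw [← mul_sum]
  linarith

/-! ### Counting -/

/-- the number of patterns `a, b, b` with `a ≠ b` -/
def pat : List Bool → ℕ
  | a :: b :: c :: l => (if a ≠ b ∧ b = c then 1 else 0) + pat (b :: c :: l)
  | _ => 0

lemma pat_cons3 (a b c : Bool) (l : List Bool) :
    pat (a :: b :: c :: l) = (if a ≠ b ∧ b = c then 1 else 0) + pat (b :: c :: l) := by
  rw [pat]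

lemma pat_eq (u : List Bool) : pat u = ∑ i ∈ range (u.length - 2),
    if u.getD i false ≠ u.getD (i + 1) false ∧ u.getD (i + 1) false = u.getD (i + 2) false
    then 1 else 0 := by
  induction u with
  | nil => rfl
  | cons a u ih =>
    match u, ih with
    | [], _ => rfl
    | [b], _ => rfl
    | b :: c :: l, ih =>
      rw [pat_cons3]
      have e : (a :: b :: c :: l).length - 2 = ((b :: c :: l).length - 2) + 1 := by simp
      rw [e, Finset.sum_range_succ', ih, add_comm]
      rfl

lemma chg_cons_le (a : Bool) (v : List Bool) : chg (a :: v) ≤ chg v + 1 := by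
  cases v with
  | nil => exact Nat.zero_le _
  | cons b l =>
    change (if a = b then 0 else 1) + chg (b :: l) ≤ _
    split_ifs <;> omega

lemma pat_cons_le (a : Bool) (v : List Bool) : pat (a :: v) ≤ pat v + 1 := by
  match v with
  | [] => exact Nat.zero_le _
  | [b] => exact Nat.zero_le _
  | b :: c :: l =>
    rw [pat_cons3]
    split_ifs <;> omega

lemma pat_dup (b : Bool) (v : List Bool) : pat (b :: b :: v) = pat (b :: v) := by
  match v with
  | [] => rfl
  | c :: l =>
    rw [pat_cons3, if_neg (fun h => h.1 rfl), Nat.zero_add]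

lemma chg_rep (b : Bool) (v : List Bool) : ∀ e : ℕ, chg (List.replicate e b ++ v) ≤ chg v + 1
  | 0 => Nat.le_succ _
  | 1 => chg_cons_le b v
  | e + 2 => by
    have h := chg_rep b v (e + 1)
    have e1 : chg (List.replicate (e + 2) b ++ v) =
        (if b = b then 0 else 1) + chg (List.replicate (e + 1) b ++ v) := rfl
    rw [e1, if_pos rfl, Nat.zero_add]
    exact h

lemma pat_rep (b : Bool) (v : List Bool) : ∀ e : ℕ, pat (List.replicate e b ++ v) ≤ pat v + 1
  | 0 => Nat.le_succ _
  | 1 => pat_cons_le b v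
  | e + 2 => by
    have h := pat_rep b v (e + 1)
    have e1 : pat (List.replicate (e + 2) b ++ v) = pat (List.replicate (e + 1) b ++ v) := by
      have e2 : List.replicate (e + 2) b ++ v = b :: b :: (List.replicate e b ++ v) := rfl
      have e3 : List.replicate (e + 1) b ++ v = b :: (List.replicate e b ++ v) := rfl
      rw [e2, e3, pat_dup]
    rw [e1]
    exact h

/-- the word of a list of syllables -/
def fl (s : List (Bool × ℕ)) : List Bool := s.flatMap fun p => List.replicate p.2 p.1

/-- the dual list of syllables -/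
def ds (s : List (Bool × ℕ)) : List (Bool × ℕ) := (s.map fun p => (!p.1, p.2)).reverse

lemma ds_len (s : List (Bool × ℕ)) : (ds s).length = s.length := by simp [ds]

lemma fl_ds (s : List (Bool × ℕ)) : fl (ds s) = dual (fl s) := by
  induction s with
  | nil => rfl
  | cons p s ih =>
    have e : ds (p :: s) = ds s ++ [(!p.1, p.2)] := by simp [ds]
    have e2 : fl (p :: s) = List.replicate p.2 p.1 ++ fl s := rfl
    have e3 : fl (ds s ++ [(!p.1, p.2)]) = fl (ds s) ++ List.replicate p.2 (!p.1) := by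
      simp [fl]
    rw [e, e2, dual_append, e3, ih, Pool.Agent.R807.IN.dual_rep]

lemma chg_fl (s : List (Bool × ℕ)) (v : List Bool) : chg (fl s ++ v) ≤ s.length + chg v := by
  induction s with
  | nil => exact (Nat.zero_add _).ge
  | cons p s ih =>
    have e2 : fl (p :: s) ++ v = List.replicate p.2 p.1 ++ (fl s ++ v) := by
      change (List.replicate p.2 p.1 ++ fl s) ++ v = _
      rw [List.append_assoc]
    rw [e2, List.length_cons]
    have := chg_rep p.1 (fl s ++ v) p.2
    omega

lemma pat_fl (s : List (Bool × ℕ)) (v : List Bool) : pat (fl s ++ v) ≤ s.length + pat v := by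
  induction s with
  | nil => exact (Nat.zero_add _).ge
  | cons p s ih =>
    have e2 : fl (p :: s) ++ v = List.replicate p.2 p.1 ++ (fl s ++ v) := by
      change (List.replicate p.2 p.1 ++ fl s) ++ v = _
      rw [List.append_assoc]
    rw [e2, List.length_cons]
    have := pat_rep p.1 (fl s ++ v) p.2
    omega

lemma chg_pw1 (v : List Bool) (n : ℕ) : chg (pw 1 n ++ v) ≤ 2 * n + chg v := by
  induction n with
  | zero => exact (Nat.zero_add _).ge
  | succ n ih =>
    have e : pw 1 (n + 1) ++ v = true :: false :: (pw 1 n ++ v) := rfl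
    rw [e]
    have h1 := chg_cons_le true (false :: (pw 1 n ++ v))
    have h2 := chg_cons_le false (pw 1 n ++ v)
    omega

lemma pat_pw1 (v : List Bool) : ∀ n : ℕ, pat (pw 1 n ++ v) ≤ pat v + 1
  | 0 => Nat.le_succ _
  | 1 => by
    have e : pw 1 1 ++ v = true :: false :: v := rfl
    rw [e]
    match v with
    | [] => exact Nat.zero_le _
    | [c] =>
      rw [pat_cons3]
      have : pat [false, c] = 0 := rfl
      rw [this]
      split_ifs <;> omega
    | c :: d :: l =>
      rw [pat_cons3, pat_cons3]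
      cases c <;> simp <;> (try split_ifs) <;> omega
  | n + 2 => by
    have h := pat_pw1 v (n + 1)
    have e : pw 1 (n + 2) ++ v = true :: false :: true :: false :: (pw 1 n ++ v) := rfl
    have e2 : pw 1 (n + 1) ++ v = true :: false :: (pw 1 n ++ v) := rfl
    rw [e, pat_cons3, pat_cons3, ← e2]
    simpa using h

lemma chg_U (n : ℕ) (x y : List (Bool × ℕ)) (v : List Bool) :
    chg ((wx 1 n (fl x) (fl y) ++ dual (wx 1 n (fl x) (fl y))) ++ v) ≤
      (4 * n + 2 * (x.length + y.length)) + chg v := by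
  unfold wx
  rw [dual_append, dual_append, dual_pw, ← fl_ds, ← fl_ds]
  simp only [List.append_assoc]
  have h1 := chg_fl x (pw 1 n ++ (fl y ++ (fl (ds y) ++ (pw 1 n ++ (fl (ds x) ++ v)))))
  have h2 := chg_pw1 (fl y ++ (fl (ds y) ++ (pw 1 n ++ (fl (ds x) ++ v)))) n
  have h3 := chg_fl y (fl (ds y) ++ (pw 1 n ++ (fl (ds x) ++ v)))
  have h4 := chg_fl (ds y) (pw 1 n ++ (fl (ds x) ++ v))
  have h5 := chg_pw1 (fl (ds x) ++ v) n
  have h6 := chg_fl (ds x) v
  rw [ds_len] at h4 h6
  omega

lemma pat_U (n : ℕ) (x y : List (Bool × ℕ)) (v : List Bool) :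
    pat ((wx 1 n (fl x) (fl y) ++ dual (wx 1 n (fl x) (fl y))) ++ v) ≤
      (2 * (x.length + y.length) + 2) + pat v := by
  unfold wx
  rw [dual_append, dual_append, dual_pw, ← fl_ds, ← fl_ds]
  simp only [List.append_assoc]
  have h1 := pat_fl x (pw 1 n ++ (fl y ++ (fl (ds y) ++ (pw 1 n ++ (fl (ds x) ++ v)))))
  have h2 := pat_pw1 (fl y ++ (fl (ds y) ++ (pw 1 n ++ (fl (ds x) ++ v)))) n
  have h3 := pat_fl y (fl (ds y) ++ (pw 1 n ++ (fl (ds x) ++ v)))
  have h4 := pat_fl (ds y) (pw 1 n ++ (fl (ds x) ++ v))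
  have h5 := pat_pw1 (fl (ds x) ++ v) n
  have h6 := pat_fl (ds x) v
  rw [ds_len] at h4 h6
  omega

lemma chg_W (n k : ℕ) (x y : List (Bool × ℕ)) :
    chg (Pool.Agent.R807.IN.word 1 n k (fl x) (fl y)) ≤
      k * (4 * n + 2 * (x.length + y.length)) := by
  unfold Pool.Agent.R807.IN.word
  induction k with
  | zero => exact (Nat.zero_mul _).ge
  | succ k ih =>
    change chg ((wx 1 n (fl x) (fl y) ++ dual (wx 1 n (fl x) (fl y))) ++ pows _ k) ≤ _
    have h := chg_U n x y (pows (wx 1 n (fl x) (fl y) ++ dual (wx 1 n (fl x) (fl y))) k)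
    have e : (k + 1) * (4 * n + 2 * (x.length + y.length)) =
      (4 * n + 2 * (x.length + y.length)) + k * (4 * n + 2 * (x.length + y.length)) := by ring
    omega

lemma pat_W (n k : ℕ) (x y : List (Bool × ℕ)) :
    pat (Pool.Agent.R807.IN.word 1 n k (fl x) (fl y)) ≤
      k * (2 * (x.length + y.length) + 2) := by
  unfold Pool.Agent.R807.IN.word
  induction k with
  | zero => exact (Nat.zero_mul _).ge
  | succ k ih =>
    change pat ((wx 1 n (fl x) (fl y) ++ dual (wx 1 n (fl x) (fl y))) ++ pows _ k) ≤ _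
    have h := pat_U n x y (pows (wx 1 n (fl x) (fl y) ++ dual (wx 1 n (fl x) (fl y))) k)
    have e : (k + 1) * (2 * (x.length + y.length) + 2) =
      (2 * (x.length + y.length) + 2) + k * (2 * (x.length + y.length) + 2) := by ring
    omega

lemma lett_lt (u : List Bool) {i : ℕ} (hi : i < u.length) : lett u (i : ℤ) = u.getD i false := by
  unfold lett
  rw [Int.emod_eq_of_lt (by omega) (by omega)]
  rfl

lemma hinges_le (u : List Bool) : hinges u ≤ chg u + 1 := by
  rcases Nat.eq_zero_or_pos u.length with h0 | h0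
  · unfold hinges
    rw [h0]
    simp
  obtain ⟨m, hm⟩ : ∃ m, u.length = m + 1 := ⟨u.length - 1, by omega⟩
  rw [chg_eq]
  unfold hinges
  rw [card_filter, hm, Nat.add_sub_cancel, Finset.sum_range_succ]
  refine add_le_add (Finset.sum_le_sum fun i hi => ?_) ?_
  · rw [Finset.mem_range] at hi
    have e1 := lett_lt u (i := i) (by omega)
    have e2 := lett_lt u (i := i + 1) (by omega)
    push_cast at e2
    have e3 : Hinge u (i : ℤ) ↔ ¬ (u.getD i false = u.getD (i + 1) false) := by
      unfold Hinge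
      rw [e1, e2]
    by_cases h : u.getD i false = u.getD (i + 1) false
    · rw [if_pos h, if_neg (fun h2 => e3.1 h2 h)]
    · rw [if_neg h, if_pos (e3.2 h)]
  · split_ifs <;> omega

lemma starts_le (u : List Bool) : starts u ≤ pat u + 2 := by
  rcases Nat.lt_or_ge u.length 2 with h0 | h0
  · unfold starts
    have h1 := Finset.card_filter_le (range u.length)
      (fun i : ℕ => Hinge u (i : ℤ) ∧ ¬ Hinge u ((i : ℤ) + 1))
    rw [card_range] at h1
    omega
  obtain ⟨m, hm⟩ : ∃ m, u.length = m + 2 := ⟨u.length - 2, by omega⟩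
  rw [pat_eq]
  unfold starts
  rw [card_filter, hm, Nat.add_sub_cancel, Finset.sum_range_succ, Finset.sum_range_succ]
  have h1 : ∑ i ∈ range m, (if Hinge u (i : ℤ) ∧ ¬ Hinge u ((i : ℤ) + 1) then 1 else 0) ≤
      ∑ i ∈ range m, (if u.getD i false ≠ u.getD (i + 1) false ∧
        u.getD (i + 1) false = u.getD (i + 2) false then 1 else 0) := by
    refine Finset.sum_le_sum fun i hi => ?_
    rw [Finset.mem_range] at hi
    have e1 := lett_lt u (i := i) (by omega)
    have e2 := lett_lt u (i := i + 1) (by omega)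
    have e3 := lett_lt u (i := i + 2) (by omega)
    push_cast at e2 e3
    have e4 : (Hinge u (i : ℤ) ∧ ¬ Hinge u ((i : ℤ) + 1)) ↔
        (u.getD i false ≠ u.getD (i + 1) false ∧ u.getD (i + 1) false = u.getD (i + 2) false) := by
      unfold Hinge
      rw [e1, e2, show (i : ℤ) + 1 + 1 = i + 2 by ring, e3, not_not]
    by_cases h : u.getD i false ≠ u.getD (i + 1) false ∧ u.getD (i + 1) false = u.getD (i + 2) false
    · rw [if_pos h, if_pos (e4.2 h)]
    · rw [if_neg h, if_neg (fun h2 => h (e4.1 h2))]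
  have h2 : (if Hinge u ((m : ℕ) : ℤ) ∧ ¬ Hinge u (((m : ℕ) : ℤ) + 1) then 1 else 0) ≤ 1 := by
    split_ifs <;> omega
  have h3 : (if Hinge u ((m + 1 : ℕ) : ℤ) ∧ ¬ Hinge u (((m + 1 : ℕ) : ℤ) + 1) then 1 else 0) ≤ 1 := by
    split_ifs <;> omega
  omega

/-- the upper bound for the volume, uniform in the exponents -/
theorem hV_unif (n k : ℕ) (hk : 1 ≤ k) (x y : List (Bool × ℕ)) :
    hV (Pool.Agent.R807.IN.word 1 n k (fl x) (fl y)) ≤
      2 * (3 * lob (π / 3)) * (k * (4 * n + 2 * (x.length + y.length : ℕ) + 1)) +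
        29 * (k * (2 * (x.length + y.length : ℕ) + 4)) := by
  obtain ⟨s, hs⟩ : ∃ s, s = x.length + y.length := ⟨_, rfl⟩
  obtain ⟨u, hu⟩ : ∃ u, u = Pool.Agent.R807.IN.word 1 n k (fl x) (fl y) := ⟨_, rfl⟩
  have h1 := (hinges_le u)
  have h2 := (starts_le u)
  have h3 : chg u ≤ k * (4 * n + 2 * (x.length + y.length)) := by rw [hu]; exact chg_W n k x y
  have h4 : pat u ≤ k * (2 * (x.length + y.length) + 2) := by rw [hu]; exact pat_W n k x y
  rw [← hu]
  rw [← hs] at h3 h4 ⊢
  have h5 : hinges u ≤ k * (4 * n + 2 * s + 1) := by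
    have e : k * (4 * n + 2 * s + 1) = k * (4 * n + 2 * s) + k := by ring
    omega
  have h6 : starts u ≤ k * (2 * s + 4) := by
    have e : k * (2 * s + 4) = k * (2 * s + 2) + 2 * k := by ring
    omega
  have h7 : (hinges u : ℝ) ≤ k * (4 * n + 2 * s + 1) := by exact_mod_cast h5
  have h8 : (starts u : ℝ) ≤ k * (2 * s + 4) := by exact_mod_cast h6
  have hv : 0 ≤ 2 * (3 * lob (π / 3)) := by
    rw [GapVol.lob_dup]
    have := Pool.Agent.R807.TQ.lmax 0
    rw [GapVol.lob_zero] at this
    linarith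
  unfold hV
  refine Real.sSup_le ?_ (by positivity)
  rintro V ⟨w, hw, rfl⟩
  refine (vol_fan u hw).trans ?_
  have h9 := mul_le_mul_of_nonneg_left h7 hv
  have h10 := mul_le_mul_of_nonneg_left h8 (by norm_num : (0 : ℝ) ≤ 29)
  linarith

end Pool.Agent.U909.CI
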