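import Pool.Agent.U909.CI.Vol2
import Pool.Agent.U909.CI.Fin

/-!
# The Turaev-Viro invariants and the volume, uniformly in the exponents
-/

set_option autoImplicit false

namespace Pool.Agent.U909.CI

open Finset Filter
open Pool.Agent.Y482.CW
open Pool.Agent.R807.TQ (wl pw rate syw)
open Pool.Agent.R807.IN (dual pows wx hV)
open Pool.Agent.U909.CY (rk rt sr)
open GapVol (lob)
open scoped Real Topology

/-- letters -/
def cs (s : List (Bool × ℕ)) : List (Letter × ℕ) := s.map fun p => ((p.1, p.1), p.2)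

lemma cs_len (s : List (Bool × ℕ)) : (cs s).length = s.length := by simp [cs]

lemma wl_app (u w : List Bool) : wl (u ++ w) = wl u ++ wl w := by simp [wl]

lemma wl_fl (s : List (Bool × ℕ)) : wl (fl s) = syw (cs s) := by
  induction s with
  | nil => rfl
  | cons p s ih =>
    have e : fl (p :: s) = List.replicate p.2 p.1 ++ fl s := rfl
    have e2 : syw (cs (p :: s)) = List.replicate p.2 (p.1, p.1) ++ syw (cs s) := rfl
    rw [e, wl_app, ih, e2]
    congr 1
    simp [wl]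

lemma wl_pows (u : List Bool) (k : ℕ) : wl (pows u k) = powg (wl u) k := by
  induction k with
  | zero => rfl
  | succ k ih =>
    change wl (u ++ pows u k) = wl u ++ powg (wl u) k
    rw [wl_app, ih]

lemma wl_word (n k : ℕ) (x y : List (Bool × ℕ)) :
    wl (Pool.Agent.R807.IN.word 1 n k (fl x) (fl y)) = wordg 1 n k (cs x) (cs y) := by
  unfold Pool.Agent.R807.IN.word wordg
  rw [wl_pows, wl_app, ← dW_wl]
  have e : wl (wx 1 n (fl x) (fl y)) = wxg 1 n (cs x) (cs y) := by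
    unfold wx wxg
    rw [wl_app, wl_app, wl_fl, wl_fl]
  rw [e]

lemma lob_six : 0 < lob (π / 6) := by
  have h1 := Pool.Agent.R807.TQ.oct_lt
  have h2 : 0 ≤ lob (π / 4) :=
    EvenVol.LobIneq.lob_nonneg (by positivity) (by linarith [Real.pi_pos])
  linarith

lemma v3_bounds : 0 < lob (π / 6) ∧ 2 * lob (π / 6) ≤ π / 2 := by
  have hp := Real.pi_pos
  constructor
  · exact Pool.Agent.U909.CI.lob_six
  · have h1 := lob_le (y := π / 6) (by positivity) (by linarith)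
    have h2 : Real.log (π / 4) - Real.log (π / 6) ≤ 1 / 2 := by
      rw [← Real.log_div (by positivity) (by positivity)]
      have e : π / 4 / (π / 6) = 3 / 2 := by
        field_simp
        norm_num
      rw [e]
      have := Real.log_le_sub_one_of_pos (show (0 : ℝ) < 3 / 2 by norm_num)
      linarith
    have h3 := mul_le_mul_of_nonneg_left h2 (by positivity : 0 ≤ π / 6)
    linarith

lemma rt_le (e : ℕ) : rt e ≤ 36 * lob (π / 6) := by
  have h0 := v3_bounds.1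
  have h1 := Pool.Agent.R807.TQ.oct_lt
  unfold rt
  split_ifs with h
  · interval_cases e <;> norm_num <;> linarith
  · have h2 : ((e % 2 : ℕ) : ℝ) ≤ 1 := by exact_mod_cast (by omega : e % 2 ≤ 1)
    nlinarith

lemma rk_le (e : ℕ) : rk e ≤ 16 * lob (π / 6) := by
  have h0 := v3_bounds.1
  have h1 := Pool.Agent.R807.TQ.oct_lt
  unfold rk
  split_ifs with h
  · interval_cases e <;> norm_num <;> linarith
  · linarith

lemma sr_le {f : ℕ → ℝ} {b : ℝ} (h : ∀ e, f e ≤ b) (s : List (Letter × ℕ)) :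
    sr f s ≤ b * s.length := by
  induction s with
  | nil => simp [sr]
  | cons p s ih =>
    have e : sr f (p :: s) = f p.2 + sr f s := by simp [sr]
    rw [e, List.length_cons]
    have := h p.2
    push_cast
    linarith

/-- the volume: bounds which are uniform in the exponents -/
theorem vol_two (n k : ℕ) (hn : 1 ≤ n) (hk : 1 ≤ k) (x y : List (Bool × ℕ)) :
    (8 * n - 4) * (2 * lob (π / 6)) * k ≤ hV (Pool.Agent.R807.IN.word 1 n k (fl x) (fl y)) ∧
    hV (Pool.Agent.R807.IN.word 1 n k (fl x) (fl y)) ≤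
      (8 * n + 4 * (x.length + y.length : ℕ) + 2) * (2 * lob (π / 6)) * k +
        (58 * (x.length + y.length : ℕ) + 116) * k := by
  have h1 := (Pool.Agent.R807.IN.hV_word n k hn hk (fl x) (fl y)).1
  have h2 := hV_unif n k hk x y
  rw [Pool.Agent.R807.IN.rate_one, GapVol.lob_dup] at h1
  rw [GapVol.lob_dup] at h2
  constructor
  · refine le_trans (le_of_eq ?_) h1
    ring
  · refine h2.trans (le_of_eq ?_)
    ring

/-- the comparison -/
theorem comp (n k : ℕ) (hn : 1 ≤ n) (hk : 1 ≤ k) (x y : List (Bool × ℕ)) {ε : ℝ} (hε : 0 < ε) :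
    ∀ᶠ r : ℕ in atTop ⊓ 𝓟 {r : ℕ | Odd r},
    |2 * π / ((r : ℝ) - 2) * Real.log (tvw (wl (Pool.Agent.R807.IN.word 1 n k (fl x) (fl y))) r) -
      hV (Pool.Agent.R807.IN.word 1 n k (fl x) (fl y))| ≤
        120 * k * ((x.length + y.length : ℕ) + 1) + ε := by
  have hpi := Real.pi_lt_d2
  obtain ⟨h0, h0'⟩ := v3_bounds
  obtain ⟨g1, g2⟩ := vol_two n k hn hk x y
  have r1 := sr_le rt_le (cs x)
  have r2 := sr_le rt_le (cs y)
  have r3 := sr_le rk_le (cs x)
  have r4 := sr_le rk_le (cs y)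
  rw [cs_len] at r1 r2 r3 r4
  filter_upwards [two_g (Or.inl rfl) n k hn hk (cs x) (cs y) hε] with r hr
  rw [← wl_word, Pool.Agent.R807.IN.rate_one, GapVol.lob_dup] at hr
  obtain ⟨v, hv⟩ : ∃ v, v = lob (π / 6) := ⟨_, rfl⟩
  obtain ⟨V, hV'⟩ : ∃ V, V = hV (Pool.Agent.R807.IN.word 1 n k (fl x) (fl y)) := ⟨_, rfl⟩
  obtain ⟨Y, hY⟩ : ∃ Y, Y = 2 * π / ((r : ℝ) - 2) *
    Real.log (tvw (wl (Pool.Agent.R807.IN.word 1 n k (fl x) (fl y))) r) := ⟨_, rfl⟩
  rw [← hY] at hr ⊢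
  rw [← hV'] at g1 g2 ⊢
  rw [← hv] at h0 h0' r1 r2 r3 r4 g1 g2 hr
  push_cast at g2 ⊢
  have hk0 : (1 : ℝ) ≤ k := by exact_mod_cast hk
  obtain ⟨a, ha⟩ : ∃ a : ℝ, a = (x.length : ℝ) := ⟨_, rfl⟩
  obtain ⟨b, hb⟩ : ∃ b : ℝ, b = (y.length : ℝ) := ⟨_, rfl⟩
  rw [← ha] at r1 r3 g2 ⊢
  rw [← hb] at r2 r4 g2 ⊢
  have ha0 : 0 ≤ a := by rw [ha]; positivity
  have hb0 : 0 ≤ b := by rw [hb]; positivity
  obtain ⟨hr1, hr2⟩ := hr
  have hKv : 0 ≤ (k : ℝ) * v := by positivity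
  have hKs : 0 ≤ (k : ℝ) * (a + b) := by positivity
  have q1 : (k : ℝ) * (sr rt (cs x) + sr rt (cs y)) ≤ k * (36 * v * (a + b)) :=
    mul_le_mul_of_nonneg_left (by linarith) (by linarith)
  have q2 : (k : ℝ) * (sr rk (cs x) + sr rk (cs y)) ≤ k * (16 * v * (a + b)) :=
    mul_le_mul_of_nonneg_left (by linarith) (by linarith)
  have q3 : v * ((k : ℝ) * (a + b)) ≤ 0.7875 * (k * (a + b)) :=
    mul_le_mul_of_nonneg_right (by linarith) hKs
  have q4 : v * (k : ℝ) ≤ 0.7875 * k := mul_le_mul_of_nonneg_right (by linarith) (by linarith)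
  have e1 : 4 * (n : ℝ) * k * (2 * (2 * v)) = 16 * (n * k * v) := by ring
  have e2 : (8 * (n : ℝ) - 4) * (2 * v) * k = 16 * (n * k * v) - 8 * (v * k) := by ring
  have e3 : (8 * (n : ℝ) + 4 * (a + b) + 2) * (2 * v) * k + (58 * (a + b) + 116) * k =
    16 * (n * k * v) + 8 * (v * (k * (a + b))) + 4 * (v * k) + 58 * (k * (a + b)) + 116 * k := by ring
  have e4 : 120 * (k : ℝ) * (a + b + 1) = 120 * (k * (a + b)) + 120 * k := by ring
  have e5 : (k : ℝ) * (36 * v * (a + b)) = 36 * (v * (k * (a + b))) := by ring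
  have e6 : (k : ℝ) * (16 * v * (a + b)) = 16 * (v * (k * (a + b))) := by ring
  rw [e1] at hr1 hr2
  rw [e2] at g1
  rw [e3] at g2
  rw [e5] at q1
  rw [e6] at q2
  rw [e4, abs_le]
  constructor
  · linarith
  · linarith

/-- the ratio -/
theorem ratio (S : ℕ) {δ : ℝ} (hδ : 0 < δ) : ∃ n0 : ℕ, 1 ≤ n0 ∧ ∀ n k : ℕ, n0 ≤ n → 1 ≤ k →
    ∀ x y : List (Bool × ℕ), x.length + y.length ≤ S →
      0 < hV (Pool.Agent.R807.IN.word 1 n k (fl x) (fl y)) ∧
      ∀ᶠ r : ℕ in atTop ⊓ 𝓟 {r : ℕ | Odd r},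
        |2 * π / ((r : ℝ) - 2) * Real.log (tvw (wl (Pool.Agent.R807.IN.word 1 n k (fl x) (fl y))) r) -
          hV (Pool.Agent.R807.IN.word 1 n k (fl x) (fl y))| ≤
        δ * hV (Pool.Agent.R807.IN.word 1 n k (fl x) (fl y)) := by
  obtain ⟨h0, _⟩ := v3_bounds
  obtain ⟨v, hv⟩ : ∃ v, v = lob (π / 6) := ⟨_, rfl⟩
  rw [← hv] at h0
  obtain ⟨m, hm⟩ := exists_nat_ge ((120 * (S + 1) + 1) / (δ * (8 * v)))
  refine ⟨m + 1, by omega, fun n k hn hk x y hxy => ?_⟩
  obtain ⟨g1, _⟩ := vol_two n k (by omega) hk x y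
  rw [← hv] at g1
  have hn' : (m : ℝ) + 1 ≤ n := by exact_mod_cast hn
  have hk' : (1 : ℝ) ≤ k := by exact_mod_cast hk
  have hm0 : (0 : ℝ) ≤ m := Nat.cast_nonneg m
  have h8 : 8 * (m : ℝ) * v * k ≤ (8 * n - 4) * (2 * v) * k := by
    have : 8 * (m : ℝ) * v ≤ (8 * n - 4) * (2 * v) := by nlinarith
    exact mul_le_mul_of_nonneg_right this (by linarith)
  have h9 : 120 * ((S : ℝ) + 1) + 1 ≤ m * (δ * (8 * v)) := (div_le_iff₀ (by positivity)).1 hm
  have h10 : (120 * ((S : ℝ) + 1) + 1) * k ≤ δ * (8 * (m : ℝ) * v * k) := by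
    calc (120 * ((S : ℝ) + 1) + 1) * k ≤ m * (δ * (8 * v)) * k :=
          mul_le_mul_of_nonneg_right h9 (by linarith)
      _ = _ := by ring
  have hmpos : 0 < 8 * (m : ℝ) * v * k := by
    have : 0 < (120 * ((S : ℝ) + 1) + 1) * k := by positivity
    by_contra hneg
    have h11 := mul_nonpos_of_nonneg_of_nonpos hδ.le (not_lt.1 hneg)
    linarith
  refine ⟨by linarith, ?_⟩
  filter_upwards [comp n k (by omega) hk x y (ε := k) (by linarith)] with r hr
  refine hr.trans ?_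
  have hs : ((x.length + y.length : ℕ) : ℝ) ≤ S := by exact_mod_cast hxy
  have h12 : 120 * (k : ℝ) * (((x.length + y.length : ℕ) : ℝ) + 1) + k ≤
      (120 * ((S : ℝ) + 1) + 1) * k := by nlinarith
  refine h12.trans (h10.trans ?_)
  exact mul_le_mul_of_nonneg_left (h8.trans g1) hδ.le

end Pool.Agent.U909.CI
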